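import Pool.Agent.Helper46_C4N.Good

/-!
# SMP: the probabilistic part
-/

set_option autoImplicit false
set_option linter.unusedSectionVars false

open scoped BigOperators Classical

noncomputable section

namespace Pool.Agent.C4N.H46

open Finset Pool.Agent.C4N
open Pool.Agent.LAG (near near_refl near_symm near_mono near_trans near_adj)
open Pool.Agent.Helper13_Conc (mean)

/-- number of the outcomes with the property -/
def nc {Ω : Type*} (P : Ω → Prop) : ℝ := ({ω | P ω}.ncard : ℝ)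

theorem mono {Ω : Type*} [Finite Ω] {P P' : Ω → Prop} (h : ∀ ω, P ω → P' ω) : nc P ≤ nc P' := by
  unfold nc
  exact_mod_cast Set.ncard_le_ncard (fun ω hω => h ω hω) (Set.toFinite _)

theorem ub {Ω ι : Type*} [Finite Ω] (S : Finset ι) (P : ι → Ω → Prop) (p : ℝ)
    (h : ∀ i ∈ S, nc (P i) ≤ p) : nc (fun ω => ∃ i ∈ S, P i ω) ≤ S.card * p := by
  have h1 : {ω | ∃ i ∈ S, P i ω} = ⋃ i ∈ S, {ω | P i ω} := by
    ext ω
    simp
  have h2 : nc (fun ω => ∃ i ∈ S, P i ω) ≤ ∑ i ∈ S, nc (P i) := by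
    unfold nc
    rw [h1]
    have := Finset.set_ncard_biUnion_le S fun i => {ω | P i ω}
    exact_mod_cast this
  refine h2.trans ?_
  rw [← nsmul_eq_mul, ← Finset.sum_const]
  exact Finset.sum_le_sum h

theorem ub2 {Ω : Type*} [Finite Ω] (P P' : Ω → Prop) (p p' : ℝ)
    (h : nc P ≤ p) (h' : nc P' ≤ p') : nc (fun ω => P ω ∨ P' ω) ≤ p + p' := by
  have h1 : nc (fun ω => P ω ∨ P' ω) ≤ nc P + nc P' := by
    unfold nc
    have := Set.ncard_union_le {ω | P ω} {ω | P' ω}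
    exact_mod_cast this
  linarith

variable {V : Type} [Fintype V] {K : ℕ}

/-- the edges at `x` to the vertices of `P` -/
def star (x : V) (P : V → Prop) : Finset (Sym2 V) := (univ.filter P).image fun y => s(x, y)

theorem star_inj (x : V) : Function.Injective fun y : V => s(x, y) := by
  intro y y' h
  exact Sym2.congr_right.1 h

theorem star_card (x : V) (P : V → Prop) : (star x P).card = {y | P y}.ncard := by
  unfold star
  rw [Finset.card_image_of_injective _ (star_inj x), card_eq]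

theorem star_count (x : V) (P : V → Prop) (T : Fin K → Prop) (ω : Sym2 V → Fin K)
    (inst : DecidablePred fun e => ω e ∈ univ.filter T) :
    (@Finset.filter _ (fun e => ω e ∈ univ.filter T) inst (star x P)).card =
      {y | P y ∧ T (ω s(x, y))}.ncard := by
  unfold star
  rw [Finset.filter_image, Finset.card_image_of_injective _ (star_inj x), Finset.filter_filter,
    card_eq]
  congr 1
  ext y
  simp

theorem ev_dev (hedc : EDCStmt) (hK : 0 < K) (x : V) (P : V → Prop) (T : Fin K → Prop) {τ : ℝ}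
    (hτ : 0 ≤ τ) (h1 : 1 ≤ {y | P y}.ncard) :
    nc (fun ω : Sym2 V → Fin K =>
      τ ≤ |({y | P y ∧ T (ω s(x, y))}.ncard : ℝ) -
        {y | P y}.ncard * (({t | T t}.ncard : ℝ) / K)|) ≤
    2 * Real.exp (-(τ ^ 2 / (2 * {y | P y}.ncard))) * Nat.card (Sym2 V → Fin K) := by
  have : Nonempty (Fin K) := ⟨⟨0, hK⟩⟩
  have h := ((hedc (Sym2 V) (Fin K) (star x P) (univ.filter T) _ τ le_rfl hτ).2.1
    (by rw [star_card]; exact h1))
  rw [card_eq (Ω := Sym2 V → Fin K), tot_eq (Ω := Sym2 V → Fin K)] at h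
  simp only [star_card, star_count, Fintype.card_fin, card_eq (Ω := Fin K)] at h
  exact h

theorem ev_up (hedc : EDCStmt) (hK : 0 < K) (x : V) (P : V → Prop) (T : Fin K → Prop) {m t : ℝ}
    (hm : {y | P y}.ncard * (({t | T t}.ncard : ℝ) / K) ≤ m) (ht : 0 ≤ t) :
    nc (fun ω : Sym2 V → Fin K =>
      2 * m + t ≤ ({y | P y ∧ T (ω s(x, y))}.ncard : ℝ)) ≤
    Real.exp (-t) * Nat.card (Sym2 V → Fin K) := by
  have : Nonempty (Fin K) := ⟨⟨0, hK⟩⟩
  have h := (hedc (Sym2 V) (Fin K) (star x P) (univ.filter T) m t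
    (by rw [star_card, Fintype.card_fin, card_eq]; exact hm) ht).1
  rw [card_eq (Ω := Sym2 V → Fin K), tot_eq (Ω := Sym2 V → Fin K)] at h
  simp only [star_count] at h
  exact h

theorem ev_few (hedc : EDCStmt) (hK : 0 < K) (x : V) (P : V → Prop) (T : Fin K → Prop) {m : ℝ}
    (hm : {y | P y}.ncard * (({t | T t}.ncard : ℝ) / K) ≤ m) (j : ℕ) :
    nc (fun ω : Sym2 V → Fin K => j ≤ {y | P y ∧ T (ω s(x, y))}.ncard) ≤
    m ^ j * Nat.card (Sym2 V → Fin K) := by
  have : Nonempty (Fin K) := ⟨⟨0, hK⟩⟩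
  have h := (hedc (Sym2 V) (Fin K) (star x P) (univ.filter T) m 0
    (by rw [star_card, Fintype.card_fin, card_eq]; exact hm) le_rfl).2.2 j
  rw [card_eq (Ω := Sym2 V → Fin K), tot_eq (Ω := Sym2 V → Fin K)] at h
  simp only [star_count] at h
  exact h

/-- the neighbours of `x` which have an edge of `E` with coin in `T` -/
theorem ev_nb (hedc : EDCStmt) (hK : 0 < K) {R E : SimpleGraph V} (x : V) (T : Fin K → Prop)
    {d1 d2 t : ℝ} (hR : (dg R x : ℝ) ≤ d1) (hE : ∀ v, (dg E v : ℝ) ≤ d2) (hd1 : 0 ≤ d1)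
    (ht : 0 ≤ t) :
    nc (fun ω : Sym2 V → Fin K =>
      2 * (2 * (d1 * d2 * (({t | T t}.ncard : ℝ) / K)) + t) <
        ({y | R.Adj x y ∧ ∃ z, E.Adj y z ∧ T (ω s(y, z))}.ncard : ℝ)) ≤
    Real.exp (-t) * Nat.card (Sym2 V → Fin K) := by
  have : Nonempty (Fin K) := ⟨⟨0, hK⟩⟩
  have hKp : (0 : ℝ) < K := by exact_mod_cast hK
  set F : Finset (Sym2 V) := (univ.filter fun q : V × V => R.Adj x q.1 ∧ E.Adj q.1 q.2).image
    fun q => s(q.1, q.2) with hF
  have hFc : (F.card : ℝ) ≤ d1 * d2 := by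
    have h1 : F.card ≤ ∑ y ∈ univ.filter (fun y => R.Adj x y), dg E y := by
      refine Finset.card_image_le.trans ?_
      have h2 : (univ.filter fun q : V × V => R.Adj x q.1 ∧ E.Adj q.1 q.2) =
          (univ.filter fun y => R.Adj x y).biUnion fun y =>
            (univ.filter fun z => E.Adj y z).image fun z => (y, z) := by
        ext ⟨y, z⟩
        simp
      rw [h2]
      refine Finset.card_biUnion_le.trans (Finset.sum_le_sum fun y _ => ?_)
      refine Finset.card_image_le.trans (le_of_eq ?_)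
      rw [card_eq]
      rfl
    have h2 : (F.card : ℝ) ≤ ∑ y ∈ univ.filter (fun y => R.Adj x y), (dg E y : ℝ) := by
      exact_mod_cast h1
    refine h2.trans ((Finset.sum_le_sum fun y _ => hE y).trans ?_)
    rw [Finset.sum_const, nsmul_eq_mul, card_eq]
    have hd2 : 0 ≤ d2 := (Nat.cast_nonneg _).trans (hE x)
    exact mul_le_mul_of_nonneg_right hR hd2
  have h := (hedc (Sym2 V) (Fin K) F (univ.filter T) (d1 * d2 * (({t | T t}.ncard : ℝ) / K)) t
    (by
      rw [Fintype.card_fin, card_eq]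
      exact mul_le_mul_of_nonneg_right hFc (by positivity)) ht).1
  rw [card_eq (Ω := Sym2 V → Fin K), tot_eq (Ω := Sym2 V → Fin K)] at h
  refine le_trans (mono ?_) h
  intro ω hω
  have hle : {y | R.Adj x y ∧ ∃ z, E.Adj y z ∧ T (ω s(y, z))}.ncard ≤
      2 * (F.filter fun e => ω e ∈ univ.filter T).card := by
    obtain ⟨P, hP⟩ : ∃ P : V → Prop, ∀ y, P y ↔ (R.Adj x y ∧ ∃ z, E.Adj y z ∧ T (ω s(y, z))) :=
      ⟨_, fun _ => Iff.rfl⟩
    have hPs : {y | R.Adj x y ∧ ∃ z, E.Adj y z ∧ T (ω s(y, z))} = {y | P y} := by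
      ext y
      exact (hP y).symm
    rw [hPs, ← card_eq inferInstance _ (fun _ => Classical.propDecidable _)]
    have hch : ∀ y : V, ∃ z, (∃ z, E.Adj y z ∧ T (ω s(y, z))) → E.Adj y z ∧ T (ω s(y, z)) := by
      intro y
      by_cases hy : ∃ z, E.Adj y z ∧ T (ω s(y, z))
      · obtain ⟨z, hz⟩ := hy
        exact ⟨z, fun _ => hz⟩
      · exact ⟨y, fun h => absurd h hy⟩
    choose zz hzz using hch
    refine Finset.card_le_mul_card_image_of_maps_to (f := fun y => s(y, zz y)) ?_ 2 ?_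
    · intro y hy
      obtain ⟨h1, h2⟩ := (hP y).1 (Finset.mem_filter.1 hy).2
      obtain ⟨h3, h4⟩ := hzz y h2
      refine Finset.mem_filter.2 ⟨?_, Finset.mem_filter.2 ⟨Finset.mem_univ _, h4⟩⟩
      rw [hF, Finset.mem_image]
      exact ⟨(y, zz y), Finset.mem_filter.2 ⟨Finset.mem_univ _, h1, h3⟩, rfl⟩
    · intro e _
      induction e using Sym2.inductionOn with
      | hf p q =>
        refine (Finset.card_le_card (t := {p, q}) ?_).trans Finset.card_le_two
        intro y hy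
        have h1 := (Finset.mem_filter.1 hy).2
        rw [Sym2.eq_iff] at h1
        rw [Finset.mem_insert, Finset.mem_singleton]
        rcases h1 with ⟨h1, _⟩ | ⟨h1, _⟩
        · exact Or.inl h1
        · exact Or.inr h1
  have hle' : ({y | R.Adj x y ∧ ∃ z, E.Adj y z ∧ T (ω s(y, z))}.ncard : ℝ) ≤
      2 * ((F.filter fun e => ω e ∈ univ.filter T).card : ℝ) := by exact_mod_cast hle
  have h3 := hω.trans_le hle'
  have hcd : ∀ i1 i2 : DecidablePred fun e => ω e ∈ univ.filter T,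
      ((@Finset.filter _ _ i1 F).card : ℝ) = ((@Finset.filter _ _ i2 F).card : ℝ) :=
    fun i1 i2 => by rw [Subsingleton.elim i1 i2]
  refine le_trans (b := ((F.filter fun e => ω e ∈ univ.filter T).card : ℝ)) (by linarith)
    (le_of_eq (hcd _ _))

/-! ## paths -/

theorem npw_nonneg {w : V → V → ℝ} (hw : ∀ x y, 0 ≤ w x y) (a : ℕ) (x y : V) :
    0 ≤ npw w a x y := by
  unfold npw
  exact Finset.sum_nonneg fun z _ => Finset.prod_nonneg fun i _ => hw _ _

theorem npw_smul (w : V → V → ℝ) (r : ℝ) (a : ℕ) (x y : V) :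
    npw (fun u v => r * w u v) a x y = r ^ a * npw w a x y := by
  unfold npw
  rw [Finset.mul_sum]
  apply Finset.sum_congr rfl
  intro z _
  rw [Finset.prod_mul_distrib, Finset.prod_const, Finset.card_univ, Fintype.card_fin]

theorem cnt_scale {R : SimpleGraph V} {L : ℕ} {A Q : ℝ} (hA : 0 ≤ A) (hQ : 0 < Q) {r : ℝ}
    (hr0 : 0 ≤ r) (hr1 : r ≤ 1) {κ : ℝ} (h : Cnt (ind R) L A κ Q) :
    Cnt (fun u v => r * ind R u v) L A (r * κ) Q := by
  intro a x y ha haL hxy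
  rw [npw_smul]
  calc r ^ a * npw (ind R) a x y ≤ r ^ a * (A * max 1 (κ ^ a / Q)) :=
        mul_le_mul_of_nonneg_left (h a x y ha haL hxy) (by positivity)
    _ = A * (r ^ a * max 1 (κ ^ a / Q)) := by ring
    _ ≤ A * max 1 ((r * κ) ^ a / Q) := by
        apply mul_le_mul_of_nonneg_left _ hA
        rw [mul_max_of_nonneg _ _ (by positivity : (0:ℝ) ≤ r ^ a), mul_one, mul_pow, mul_div_assoc]
        exact max_le_max (pow_le_one₀ hr0 hr1) le_rfl

theorem ev_pth {L m : ℕ} {D : ℝ} (hD : 1 ≤ D)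
    (htrk : ∀ (V α : Type) [Fintype V] [Fintype α]
      [Nonempty α] (φ : Sym2 V → α → ℝ) (w : V → V → ℝ) (A κ Q : ℝ), 1 ≤ A → 1 ≤ κ → 1 ≤ Q →
      (∀ e t, 0 ≤ φ e t ∧ φ e t ≤ 1) →
      (∀ x y, (∑ t, φ s(x, y) t) / Fintype.card α ≤ w x y) → Cnt w L A κ Q →
      ∀ a x y, 1 ≤ a → a ≤ L → (x ≠ y ∨ 3 ≤ a) →
      mean (fun ω : Sym2 V → α => npw (fun u v => φ s(u, v) (ω s(u, v))) a x y ^ m) ≤
        (D * A ^ L * max 1 (κ ^ a / Q)) ^ m)
    {R : SimpleGraph V} {s : ℕ} {A Q δ : ℝ} (hK : 0 < K) (hs : 0 < s) (hs41 : 41 * s ≤ K)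
    (hA : 1 ≤ A) (hQ : 1 ≤ Q) (hc : Cnt (ind R) L A K Q) (a : ℕ) (x y : V) (ha : 1 ≤ a)
    (haL : a ≤ L) (hxy : x ≠ y ∨ 3 ≤ a) :
    nc (fun ω : Sym2 V → Fin K =>
      ¬ npw (w1 R s ω) a x y ≤ (K : ℝ) ^ δ * A ^ L * max 1 ((41 * s : ℝ) ^ a / Q)) ≤
    (D / (K : ℝ) ^ δ) ^ m * Nat.card (Sym2 V → Fin K) := by
  have : Nonempty (Fin K) := ⟨⟨0, hK⟩⟩
  have hKp : (0 : ℝ) < K := by exact_mod_cast hK
  have hsp : (0 : ℝ) < s := by exact_mod_cast hs
  have hs1 : (1 : ℝ) ≤ s := by exact_mod_cast hs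
  have hs41r : 41 * (s : ℝ) ≤ K := by exact_mod_cast hs41
  have hsK : (s : ℝ) / K ≤ 1 := by rw [div_le_one hKp]; linarith
  have hsK0 : 0 ≤ (s : ℝ) / K := by positivity
  set φ : Sym2 V → Fin K → ℝ := fun e t =>
    if e ∈ R.edgeSet then (if typ K s t = none then (s : ℝ) / K else 1) else 0 with hφ
  have hφ01 : ∀ e t, 0 ≤ φ e t ∧ φ e t ≤ 1 := by
    intro e t
    simp only [hφ]
    split_ifs
    · exact ⟨hsK0, hsK⟩
    · exact ⟨zero_le_one, le_rfl⟩
    · exact ⟨le_rfl, zero_le_one⟩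
  have hmean : ∀ u v, (∑ t, φ s(u, v) t) / Fintype.card (Fin K) ≤
      (41 * (s : ℝ) / K) * ind R u v := by
    intro u v
    rw [Fintype.card_fin]
    unfold ind
    by_cases huv : R.Adj u v
    · have h1 : ∑ t, φ s(u, v) t = ∑ t, if Tn K s t then (s : ℝ) / K else 1 := by
        apply Finset.sum_congr rfl
        intro t _
        simp only [hφ]
        rw [if_pos ((SimpleGraph.mem_edgeSet R).2 huv)]
        by_cases ht : Tn K s t
        · rw [if_pos ht, if_pos (show typ K s t = none from ht)]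
        · rw [if_neg ht, if_neg (show ¬ typ K s t = none from ht)]
      rw [h1, if_pos huv, mul_one, Finset.sum_ite, Finset.sum_const, Finset.sum_const,
        nsmul_eq_mul, nsmul_eq_mul, mul_one, card_Tn hs, card_not_Tn hs (by omega)]
      apply div_le_div_of_nonneg_right _ hKp.le
      have h2 : (((K - 40 * s : ℕ)) : ℝ) ≤ K := by exact_mod_cast Nat.sub_le _ _
      have h3 : (((K - 40 * s : ℕ)) : ℝ) * ((s : ℝ) / K) ≤ s := by
        calc (((K - 40 * s : ℕ)) : ℝ) * ((s : ℝ) / K) ≤ K * ((s : ℝ) / K) :=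
              mul_le_mul_of_nonneg_right h2 hsK0
          _ = s := by field_simp
      push_cast
      linarith
    · have h1 : ∑ t, φ s(u, v) t = 0 := by
        apply Finset.sum_eq_zero
        intro t _
        simp only [hφ]
        rw [if_neg (fun h => huv ((SimpleGraph.mem_edgeSet R).1 h))]
      rw [h1, if_neg huv, mul_zero, zero_div]
  have hcnt : Cnt (fun u v => (41 * (s : ℝ) / K) * ind R u v) L A (41 * s) Q := by
    have h1 := cnt_scale (R := R) (r := 41 * (s : ℝ) / K) (by linarith) (by linarith)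
      (by positivity) (by rw [div_le_one hKp]; exact hs41r) hc
    have h2 : 41 * (s : ℝ) / K * K = 41 * s := by field_simp
    rw [h2] at h1
    exact h1
  have h := htrk V (Fin K) φ _ A (41 * s) Q hA (by linarith) hQ hφ01 hmean hcnt a x y ha haL hxy
  have hw : ∀ ω : Sym2 V → Fin K, (fun u v => φ s(u, v) (ω s(u, v))) = w1 R s ω := by
    intro ω
    funext u v
    simp only [hφ, w1]
    by_cases huv : R.Adj u v
    · rw [if_pos ((SimpleGraph.mem_edgeSet R).2 huv), if_pos huv]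
    · rw [if_neg (fun h => huv ((SimpleGraph.mem_edgeSet R).1 h)), if_neg huv]
  simp only [hw] at h
  set ma : ℝ := max 1 ((41 * s : ℝ) ^ a / Q) with hma
  have hma1 : 1 ≤ ma := le_max_left _ _
  have hKδ : 0 < (K : ℝ) ^ δ := Real.rpow_pos_of_pos hKp _
  have hAL : 0 < A ^ L := by positivity
  have hZ : 0 < (K : ℝ) ^ δ * A ^ L * ma := by positivity
  have hcard : (0 : ℝ) < Fintype.card (Sym2 V → Fin K) := by exact_mod_cast Fintype.card_pos
  unfold mean at h
  rw [div_le_iff₀ hcard] at h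
  have h2 : ((univ.filter fun ω : Sym2 V → Fin K =>
      ¬ npw (w1 R s ω) a x y ≤ (K : ℝ) ^ δ * A ^ L * ma).card : ℝ) *
      ((K : ℝ) ^ δ * A ^ L * ma) ^ m ≤ ∑ ω : Sym2 V → Fin K, npw (w1 R s ω) a x y ^ m := by
    rw [← nsmul_eq_mul, ← Finset.sum_const]
    refine le_trans (Finset.sum_le_sum (g := fun ω => npw (w1 R s ω) a x y ^ m) ?_)
      (Finset.sum_le_sum_of_subset_of_nonneg (Finset.subset_univ _) ?_)
    · intro ω hω
      have := (Finset.mem_filter.1 hω).2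
      rw [not_le] at this
      exact pow_le_pow_left₀ hZ.le this.le _
    · intro ω _ _
      exact pow_nonneg (npw_nonneg (fun u v => w1_nonneg R s ω u v) _ _ _) _
  have h3 := h2.trans h
  have h4 : (D * A ^ L * ma) ^ m = (D / (K : ℝ) ^ δ) ^ m * ((K : ℝ) ^ δ * A ^ L * ma) ^ m := by
    rw [← mul_pow]
    congr 1
    field_simp
  rw [h4] at h3
  have h5 : ((univ.filter fun ω : Sym2 V → Fin K =>
      ¬ npw (w1 R s ω) a x y ≤ (K : ℝ) ^ δ * A ^ L * ma).card : ℝ) *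
      ((K : ℝ) ^ δ * A ^ L * ma) ^ m ≤
      ((D / (K : ℝ) ^ δ) ^ m * Fintype.card (Sym2 V → Fin K)) *
        ((K : ℝ) ^ δ * A ^ L * ma) ^ m := by
    refine h3.trans (le_of_eq ?_)
    ring
  have h6 := le_of_mul_le_mul_right h5 (by positivity)
  rw [card_eq (Ω := Sym2 V → Fin K), tot_eq (Ω := Sym2 V → Fin K)] at h6
  exact h6

/-! ## all events at a vertex -/

theorem bad_bound (hedc : EDCStmt) {k0 : ℕ}
    (hres : ∀ k K s : ℕ, k0 ≤ k → K ≤ k → 1 ≤ K →
      (k : ℝ) ^ (0.99 : ℝ) ≤ s → s ≤ k →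
      ∀ (V : Type) [Fintype V] (R : SimpleGraph V) (O : V → V → Prop), C4free R →
      (∀ x y, O x y → R.Adj x y) → (∀ x y, O x y → ¬ O y x) →
      (∀ x, od O x ≤ k ∧ od (fun u v => O v u) x ≤ k) →
      ∀ (T : Fin K → Prop) (h : Fin K → ℝ) (N h1 : ℝ), (∀ t, 0 ≤ h t ∧ h t ≤ 1) →
      (∀ t, T t → h t = h1) → ∀ x,
      ((univ.filter fun ω : Sym2 V → Fin K =>
          (k : ℝ) ^ (-0.45 : ℝ) ≤ |Fr O T h s N h1 ω x|).card : ℝ) ≤
        Real.exp (-(k : ℝ) ^ (0.01 : ℝ)) * Fintype.card (Sym2 V → Fin K))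
    (hebl : EBLStmt) {L m : ℕ} {D : ℝ} (hD : 1 ≤ D)
    (htrk : ∀ (V α : Type) [Fintype V] [Fintype α]
      [Nonempty α] (φ : Sym2 V → α → ℝ) (w : V → V → ℝ) (A κ Q : ℝ), 1 ≤ A → 1 ≤ κ → 1 ≤ Q →
      (∀ e t, 0 ≤ φ e t ∧ φ e t ≤ 1) →
      (∀ x y, (∑ t, φ s(x, y) t) / Fintype.card α ≤ w x y) → Cnt w L A κ Q →
      ∀ a x y, 1 ≤ a → a ≤ L → (x ≠ y ∨ 3 ≤ a) →
      mean (fun ω : Sym2 V → α => npw (fun u v => φ s(u, v) (ω s(u, v))) a x y ^ m) ≤
        (D * A ^ L * max 1 (κ ^ a / Q)) ^ m)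
    {C b C1 K k s : ℕ} {c δ A Q : ℝ} (hN : Nm C L b C1 m k0 c δ D K k s) (hk : k = K + C)
    (hA : 1 ≤ A) (hQ : 1 ≤ Q) {V : Type} [Fintype V] {R E : SimpleGraph V} {O : V → V → Prop}
    (hSt : St V R K C L c A Q) (hE : ∀ v, (dg E v : ℝ) ≤ (K : ℝ) ^ (1 / 50000 : ℝ))
    (hO : Ori R O) (hod : ∀ b v, K ≤ od (OO O b) v ∧ od (OO O b) v ≤ K + C)
    {h : Fin 40 → Fin K → ℝ} {N h1 : Fin 40 → ℝ} (hh : ∀ g t, 0 ≤ h g t ∧ h g t ≤ 1)
    (hh1 : ∀ g t, Tg K s g t → h g t = h1 g) (x : V) :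
    nc (fun ω : Sym2 V → Fin K => ¬ GoodAt R E O L C1 k s c δ A Q h N h1 ω x) ≤
    (244 + (L + 1) * (2 * (k : ℝ) + 1) ^ L) *
      (1 / (K : ℝ) ^ b * Nat.card (Sym2 V → Fin K)) := by
  have hK1 := hN.K1
  have hK0 : 0 < K := by omega
  have hKr : (1 : ℝ) ≤ K := by exact_mod_cast hK1
  have hKp : (0 : ℝ) < K := by linarith
  have hs20 := hN.s20
  have hs0 : 0 < s := by omega
  have hsr : (0 : ℝ) < s := by exact_mod_cast hs0
  have hs41 := hN.s41
  have hs40 : 40 * s ≤ K := by omega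
  set T0 : ℝ := (Nat.card (Sym2 V → Fin K) : ℝ) with hT0
  have hT00 : 0 ≤ T0 := by positivity
  set p : ℝ := 1 / (K : ℝ) ^ b * T0 with hp
  have hp0 : 0 ≤ p := by positivity
  have hpe : ∀ q : ℝ, q ≤ 1 / (K : ℝ) ^ b → q * T0 ≤ p := fun q hq =>
    mul_le_mul_of_nonneg_right hq hT00
  have hOadj : ∀ b x y, OO O b x y → R.Adj x y := by
    intro b x y hb
    cases b
    · exact (hO.adj x y).2 (Or.inr hb)
    · exact (hO.adj x y).2 (Or.inl hb)
  have hOasy : ∀ b x y, OO O b x y → ¬ OO O b y x := by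
    intro b x y hb
    cases b
    · exact hO.asy y x hb
    · exact hO.asy x y hb
  -- deviations
  have hcT : ∀ (b : Bool) (T : Fin K → Prop),
      nc (fun ω : Sym2 V → Fin K => (K : ℝ) ^ (0.51 : ℝ) ≤
        |cP (OO O b) T ω x - (od (OO O b) x : ℝ) * (({t | T t}.ncard : ℝ) / K)|) ≤ p := by
    intro b T
    obtain ⟨h1, h2⟩ := hod b x
    have h3 := ev_dev hedc hK0 x (fun y => OO O b x y) T (τ := (K : ℝ) ^ (0.51 : ℝ))
      (by positivity) (by
        rw [← od_nc]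
        omega)
    simp only [← od_nc, ← cP_nc] at h3
    refine le_trans h3 (hpe _ (le_trans ?_ hN.ecnt))
    apply mul_le_mul_of_nonneg_left _ (by norm_num)
    apply Real.exp_le_exp.2
    apply neg_le_neg
    have h4 : (od (OO O b) x : ℝ) ≤ k := by
      have : od (OO O b) x ≤ k := by omega
      exact_mod_cast this
    have h5 : (0 : ℝ) < od (OO O b) x := by
      have : 0 < od (OO O b) x := by omega
      exact_mod_cast this
    exact div_le_div_of_nonneg_left (by positivity) (by positivity) (by linarith)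
  have hTg : ∀ g : Fin 40, ({t : Fin K | Tg K s g t}.ncard : ℝ) = s := by
    intro g
    exact_mod_cast nc_Tg hs0 hs40 g
  have hTn : ({t : Fin K | Tn K s t}.ncard : ℝ) = (K : ℝ) - 40 * s := by
    rw [nc_Tn hs0, Nat.cast_sub hs40]
    push_cast
    ring
  -- the five families
  have e1 : nc (fun ω : Sym2 V → Fin K => ∃ i ∈ (univ : Finset (Fin 40 × Bool)),
      (K : ℝ) ^ (0.51 : ℝ) ≤
        |cP (OO O i.2) (Tg K s i.1) ω x - (od (OO O i.2) x : ℝ) * ((s : ℝ) / K)|) ≤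
      80 * p := by
    have h1 := ub (univ : Finset (Fin 40 × Bool)) (fun i (ω : Sym2 V → Fin K) =>
      (K : ℝ) ^ (0.51 : ℝ) ≤
        |cP (OO O i.2) (Tg K s i.1) ω x - (od (OO O i.2) x : ℝ) * ((s : ℝ) / K)|) p (by
        intro i _
        have := hcT i.2 (Tg K s i.1)
        rw [hTg] at this
        exact this)
    refine h1.trans (le_of_eq ?_)
    rw [Finset.card_univ, Fintype.card_prod, Fintype.card_fin, Fintype.card_bool]
    norm_num
  have e2 : nc (fun ω : Sym2 V → Fin K => ∃ b ∈ (univ : Finset Bool),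
      (K : ℝ) ^ (0.51 : ℝ) ≤
        |cP (OO O b) (Tn K s) ω x - (od (OO O b) x : ℝ) *
          (((K : ℝ) - 40 * s) / K)|) ≤ 2 * p := by
    have h1 := ub (univ : Finset Bool) (fun b (ω : Sym2 V → Fin K) =>
      (K : ℝ) ^ (0.51 : ℝ) ≤
        |cP (OO O b) (Tn K s) ω x - (od (OO O b) x : ℝ) * (((K : ℝ) - 40 * s) / K)|) p (by
        intro b _
        have := hcT b (Tn K s)
        rw [hTn] at this
        exact this)
    refine h1.trans (le_of_eq ?_)
    rw [Finset.card_univ, Fintype.card_bool]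
    norm_num
  have e3 : nc (fun ω : Sym2 V → Fin K => ∃ i ∈ (univ : Finset (Fin 40 × Bool)),
      (k : ℝ) ^ (-0.45 : ℝ) ≤
        |Fr (OO O i.2) (Tg K s i.1) (h i.1) s (N i.1) (h1 i.1) ω x|) ≤ 80 * p := by
    have h1 := ub (univ : Finset (Fin 40 × Bool)) (fun i (ω : Sym2 V → Fin K) =>
      (k : ℝ) ^ (-0.45 : ℝ) ≤
        |Fr (OO O i.2) (Tg K s i.1) (h i.1) s (N i.1) (h1 i.1) ω x|) p (by
        intro i _
        have h2 := hres k K s hN.k0le hN.kK hK1 hN.slo hN.shi V R (OO O i.2) hSt.c4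
          (hOadj i.2) (hOasy i.2) ?_ (Tg K s i.1) (h i.1) (N i.1) (h1 i.1) (hh i.1) (hh1 i.1) x
        · rw [card_eq (Ω := Sym2 V → Fin K), tot_eq (Ω := Sym2 V → Fin K)] at h2
          exact h2.trans (hpe _ hN.efr)
        intro v
        have h2 := (hod true v).2
        have h3 := (hod false v).2
        cases i.2
        · exact ⟨by omega, by
            change od O v ≤ k
            change od O v ≤ K + C at h2
            omega⟩
        · exact ⟨by omega, by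
            change od (fun a b => O b a) v ≤ k
            change od (fun a b => O b a) v ≤ K + C at h3
            omega⟩)
    refine h1.trans (le_of_eq ?_)
    rw [Finset.card_univ, Fintype.card_prod, Fintype.card_fin, Fintype.card_bool]
    norm_num
  have e4 : nc (fun ω : Sym2 V → Fin K => ∃ i ∈ (univ : Finset (Fin 40 × Bool)),
      3 * (s * (K : ℝ) ^ (-c)) ≤ ({y | (OO O i.2 x y ∧ dg R y ≠ 2 * K) ∧
        Tg K s i.1 (ω s(x, y))}.ncard : ℝ)) ≤ 80 * p := by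
    have h1 := ub (univ : Finset (Fin 40 × Bool)) (fun i (ω : Sym2 V → Fin K) =>
      3 * (s * (K : ℝ) ^ (-c)) ≤ ({y | (OO O i.2 x y ∧ dg R y ≠ 2 * K) ∧
        Tg K s i.1 (ω s(x, y))}.ncard : ℝ)) p (by
        intro i _
        have h2 := ev_up hedc hK0 x (fun y => OO O i.2 x y ∧ dg R y ≠ 2 * K) (Tg K s i.1)
          (m := s * (K : ℝ) ^ (-c)) (t := s * (K : ℝ) ^ (-c)) (by
            rw [hTg]
            have h3 : ({y | OO O i.2 x y ∧ dg R y ≠ 2 * K}.ncard : ℝ) ≤ (K : ℝ) ^ (1 - c) := by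
              refine le_trans ?_ (hSt.sp x)
              have : {y | OO O i.2 x y ∧ dg R y ≠ 2 * K}.ncard ≤
                  {u | R.Adj x u ∧ dg R u ≠ 2 * K}.ncard :=
                Set.ncard_le_ncard (fun y hy => ⟨hOadj _ _ _ hy.1, hy.2⟩) (Set.toFinite _)
              exact_mod_cast this
            calc ({y | OO O i.2 x y ∧ dg R y ≠ 2 * K}.ncard : ℝ) *
                  ((s : ℝ) / K) ≤ (K : ℝ) ^ (1 - c) * ((s : ℝ) / K) :=
                  mul_le_mul_of_nonneg_right h3 (by positivity)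
              _ = s * (K : ℝ) ^ (-c) := by
                  rw [sub_eq_add_neg, Real.rpow_add hKp, Real.rpow_one]
                  field_simp) (by positivity)
        refine le_trans (mono ?_) (h2.trans (hpe _ hN.esp))
        intro ω hω
        refine le_trans (le_of_eq ?_) hω
        ring)
    refine h1.trans (le_of_eq ?_)
    rw [Finset.card_univ, Fintype.card_prod, Fintype.card_fin, Fintype.card_bool]
    norm_num
  have hnear : ((univ.filter fun y => near R L x y).card : ℝ) ≤ (2 * (k : ℝ) + 1) ^ L := by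
    have := (hebl V R (2 * k) L (fun v => by
      have := hSt.hi v
      omega)).1 x
    exact_mod_cast this
  have e5 : nc (fun ω : Sym2 V → Fin K =>
      ∃ i ∈ (Finset.range (L + 1)) ×ˢ (univ.filter fun y => near R L x y),
      (1 ≤ i.1 ∧ i.1 ≤ L ∧ (x ≠ i.2 ∨ 3 ≤ i.1)) ∧ ¬ npw (w1 R s ω) i.1 x i.2 ≤
        (K : ℝ) ^ δ * A ^ L * max 1 ((41 * s : ℝ) ^ i.1 / Q)) ≤
      ((L + 1) * (2 * (k : ℝ) + 1) ^ L) * p := by
    have h1 := ub ((Finset.range (L + 1)) ×ˢ (univ.filter fun y => near R L x y))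
      (fun i (ω : Sym2 V → Fin K) =>
      (1 ≤ i.1 ∧ i.1 ≤ L ∧ (x ≠ i.2 ∨ 3 ≤ i.1)) ∧ ¬ npw (w1 R s ω) i.1 x i.2 ≤
        (K : ℝ) ^ δ * A ^ L * max 1 ((41 * s : ℝ) ^ i.1 / Q)) p (by
        intro i _
        by_cases hi : 1 ≤ i.1 ∧ i.1 ≤ L ∧ (x ≠ i.2 ∨ 3 ≤ i.1)
        · have h2 := ev_pth (δ := δ) hD htrk hK0 hs0 hs41 hA hQ hSt.ct i.1 x i.2 hi.1 hi.2.1
            hi.2.2
          exact le_trans (mono fun ω hω => hω.2) (h2.trans (hpe _ hN.epth))
        · have h2 : {ω : Sym2 V → Fin K |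
              (1 ≤ i.1 ∧ i.1 ≤ L ∧ (x ≠ i.2 ∨ 3 ≤ i.1)) ∧ ¬ npw (w1 R s ω) i.1 x i.2 ≤
              (K : ℝ) ^ δ * A ^ L * max 1 ((41 * s : ℝ) ^ i.1 / Q)} = ∅ := by
            rw [Set.eq_empty_iff_forall_notMem]
            intro ω hω
            exact hi hω.1
          unfold nc
          rw [h2, Set.ncard_empty]
          simpa using hp0)
    refine h1.trans (mul_le_mul_of_nonneg_right ?_ hp0)
    rw [Finset.card_product, Finset.card_range]
    push_cast
    exact mul_le_mul_of_nonneg_left hnear (by positivity)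
  have e6 : nc (fun ω : Sym2 V → Fin K =>
      C1 + 1 ≤ {y | E.Adj x y ∧ ¬ Tn K s (ω s(x, y))}.ncard) ≤ p := by
    have h2 := ev_few hedc hK0 x (fun y => E.Adj x y) (fun t => ¬ Tn K s t)
      (m := (K : ℝ) ^ (1 / 50000 : ℝ) * (40 * s / K)) (by
        rw [nc_not_Tn hs0 hs40]
        push_cast
        apply mul_le_mul_of_nonneg_right _ (by positivity)
        exact hE x) (C1 + 1)
    exact h2.trans (hpe _ hN.eedg)
  have e7 : nc (fun ω : Sym2 V → Fin K => ¬ ({y | R.Adj x y ∧ ∃ z, E.Adj y z ∧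
      ¬ Tn K s (ω s(y, z))}.ncard : ℝ) ≤ (K : ℝ) ^ (1 - 1 / 50000 : ℝ)) ≤ p := by
    have h2 := ev_nb hedc hK0 x (fun t => ¬ Tn K s t) (R := R) (E := E) (d1 := 2 * k)
      (t := (K : ℝ) ^ (1 / 2 : ℝ)) (by
        have : dg R x ≤ 2 * k := by
          have := hSt.hi x
          omega
        exact_mod_cast this) hE (by positivity) (by positivity)
    rw [nc_not_Tn hs0 hs40] at h2
    refine le_trans (mono ?_) (h2.trans (hpe _ hN.esq))
    intro ω hω
    rw [not_le] at hω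
    have h3 := hN.nb
    push_cast
    exact h3.trans hω
  -- union
  have hsub : ∀ ω : Sym2 V → Fin K, ¬ GoodAt R E O L C1 k s c δ A Q h N h1 ω x →
      (∃ i ∈ (univ : Finset (Fin 40 × Bool)), (K : ℝ) ^ (0.51 : ℝ) ≤
        |cP (OO O i.2) (Tg K s i.1) ω x - (od (OO O i.2) x : ℝ) * ((s : ℝ) / K)|) ∨
      (∃ b ∈ (univ : Finset Bool), (K : ℝ) ^ (0.51 : ℝ) ≤
        |cP (OO O b) (Tn K s) ω x - (od (OO O b) x : ℝ) * (((K : ℝ) - 40 * s) / K)|) ∨
      (∃ i ∈ (univ : Finset (Fin 40 × Bool)), (k : ℝ) ^ (-0.45 : ℝ) ≤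
        |Fr (OO O i.2) (Tg K s i.1) (h i.1) s (N i.1) (h1 i.1) ω x|) ∨
      (∃ i ∈ (univ : Finset (Fin 40 × Bool)),
        3 * (s * (K : ℝ) ^ (-c)) ≤ ({y | (OO O i.2 x y ∧ dg R y ≠ 2 * K) ∧
        Tg K s i.1 (ω s(x, y))}.ncard : ℝ)) ∨
      (∃ i ∈ (Finset.range (L + 1)) ×ˢ (univ.filter fun y => near R L x y),
        (1 ≤ i.1 ∧ i.1 ≤ L ∧ (x ≠ i.2 ∨ 3 ≤ i.1)) ∧ ¬ npw (w1 R s ω) i.1 x i.2 ≤
        (K : ℝ) ^ δ * A ^ L * max 1 ((41 * s : ℝ) ^ i.1 / Q)) ∨
      C1 + 1 ≤ {y | E.Adj x y ∧ ¬ Tn K s (ω s(x, y))}.ncard ∨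
      ¬ ({y | R.Adj x y ∧ ∃ z, E.Adj y z ∧ ¬ Tn K s (ω s(y, z))}.ncard : ℝ) ≤
        (K : ℝ) ^ (1 - 1 / 50000 : ℝ) := by
    intro ω hω
    by_contra hno
    push Not at hno
    obtain ⟨n1, n2, n3, n4, n5, n6, n7⟩ := hno
    apply hω
    refine ⟨fun g b => n1 (g, b) (Finset.mem_univ _), fun b => n2 b (Finset.mem_univ _),
      fun g b => n3 (g, b) (Finset.mem_univ _), fun g b => n4 (g, b) (Finset.mem_univ _), ?_,
      by omega, n7⟩
    intro a y ha haL hxy
    by_cases hy : near R L x y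
    · exact n5 (a, y) (Finset.mem_product.2 ⟨Finset.mem_range.2 (by omega),
        Finset.mem_filter.2 ⟨Finset.mem_univ _, hy⟩⟩) ⟨ha, haL, hxy⟩
    · rw [npw_far haL hy]
      positivity
  refine (mono hsub).trans ?_
  refine (ub2 _ _ _ _ e1 (ub2 _ _ _ _ e2 (ub2 _ _ _ _ e3 (ub2 _ _ _ _ e4
    (ub2 _ _ _ _ e5 (ub2 _ _ _ _ e6 e7)))))).trans (le_of_eq ?_)
  ring

end Pool.Agent.C4N.H46
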