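import Pool.Agent.Helper46_C4N.Det
import Pool.Agent.Helper46_C4N.Prob

/-!
# Module SMP: the coins of the types
-/

set_option autoImplicit false
set_option linter.unusedSectionVars false

open scoped BigOperators Classical

noncomputable section

namespace Pool.Agent.C4N.H46

open Finset Pool.Agent.C4N
open Pool.Agent.LAG (near)

theorem Nm.of_le {C L b C1 m k0 k0' : ℕ} {c δ D : ℝ} {K k s : ℕ}
    (h : Nm C L b C1 m k0 c δ D K k s) (hk : k0' ≤ k0) : Nm C L b C1 m k0' c δ D K k s :=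
  { h with k0le := hk.trans h.k0le }

/-- **SMP** -/
theorem smp (hllb : LLBStmt) (hebl : EBLStmt) (hedc : EDCStmt) (htrk : TRKStmt)
    (hres : RESStmt) (hbet : BETStmt) : SMPStmt := by
  intro C L c hc hc1
  obtain ⟨kr, hkr⟩ := hres
  obtain ⟨kb, hkb⟩ := det hbet
  refine ⟨20000 * (3 * L + 12), fun δ hδ => ?_⟩
  obtain ⟨m, hm⟩ := exists_nat_ge ((((3 * L + 12 : ℕ) : ℝ) + 1) / δ)
  rw [div_le_iff₀ hδ, mul_comm (m : ℝ) δ] at hm
  obtain ⟨D, hD, hD'⟩ := htrk L m
  obtain ⟨K0, hK0⟩ := nm C L (max kr kb) hc hc1 hδ hD (3 * L + 12) (20000 * (3 * L + 12)) m rfl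
    rfl hm
  refine ⟨K0, ?_⟩
  intro K M k s hK hP A Q hA hQ V _ R E O hSt hER hE hO
  have hN := hK0 K k s hK hP.hk hP.hs
  have hk := hP.hk
  have hKp : (0 : ℝ) < K := by
    have := hN.K1
    exact_mod_cast this
  have hOadj : ∀ x y, O x y → R.Adj x y := fun x y h => (hO.adj x y).2 (Or.inl h)
  have hodb := fun b v => od_bounds (K := K) hO hSt.lo hSt.hi b v
  have hM0 : 0 < M := hP.pr.pos
  have hs20 := hN.s20
  have hs0 : 0 < s := by omega
  have hsr : (20 : ℝ) ≤ s := by exact_mod_cast hs20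
  have hsp : (0 : ℝ) < s := by linarith
  have hMs : (M : ℝ) ≤ s / 20 := hP.Mhi.trans hN.m54
  have hs41 := hN.s41
  -- base weights of the coins
  have hX := fun g => Xg_bounds (K := K) (M := M) (k := k) (s := s) hM0
    (by have := hN.K1; omega) hc (by omega) g
  have hh01 : ∀ g t, 0 ≤ hg K M k s c g t ∧ hg K M k s c g t ≤ 1 := by
    intro g t
    obtain ⟨h1, h2⟩ := hX g
    have h3 : 0 ≤ h1g K M k s c g := by
      unfold h1g
      apply div_nonneg _ hsp.le
      linarith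
    have h4 : h1g K M k s c g ≤ 1 := by
      unfold h1g
      rw [div_le_one hsp]
      linarith
    unfold hg
    split_ifs
    · exact ⟨h3, h4⟩
    · exact ⟨zero_le_one, le_rfl⟩
    · exact ⟨le_rfl, zero_le_one⟩
  have hhT : ∀ g t, Tg K s g t → hg K M k s c g t = h1g K M k s c g := by
    intro g t ht
    unfold hg
    rw [if_pos ht]
  have hbad := fun x => bad_bound hedc (k0 := kr)
    (fun k K s h1 h2 h3 h4 h5 V _ R O a1 a2 a3 a4 T h N h1' b1 b2 x =>
      hkr k K s h1 h2 h3 h4 h5 V R O a1 a2 a3 a4 T h N h1' b1 b2 x) hebl (L := L) (m := m) hD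
    (fun V α _ _ _ φ w A κ Q b1 b2 b3 b4 b5 b6 a x y c1 c2 c3 =>
      hD' V α φ w A κ Q b1 b2 b3 b4 b5 b6 a x y c1 c2 c3)
    (hN.of_le (le_max_left _ _)) hk hA hQ hSt hE hO (fun b v => ⟨(hodb b v).1, (hodb b v).2.1⟩)
    (N := Ng K M k s c) hh01 hhT x
  -- the local lemma
  have hdg : ∀ v, dg R v ≤ 2 * k := fun v => by
    have := hSt.hi v
    omega
  obtain ⟨he1, he2, he3⟩ := hebl V R (2 * k) (L + 4) hdg
  have : Nonempty (Fin K) := ⟨⟨0, by have := hN.K1; omega⟩⟩
  have hex : ∃ ω : Sym2 V → Fin K, ∀ x, GoodAt R E O L (20000 * (3 * L + 12)) k s c δ A Q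
      (hg K M k s c) (Ng K M k s c) (h1g K M k s c) ω x := by
    have key := hllb (Sym2 V) (Fin K) V
      (fun i => (Set.toFinite {ω : Sym2 V → Fin K | ¬ GoodAt R E O L (20000 * (3 * L + 12)) k s c
        δ A Q (hg K M k s c) (Ng K M k s c) (h1g K M k s c) ω i}).toFinset)
      (fun i => univ.filter fun e : Sym2 V => ∃ x y, e = s(x, y) ∧ R.Adj x y ∧
        near R (L + 4) i x) ((2 * k + 1) ^ (L + 5)) (Nat.one_le_pow _ _ (by omega))
    have key2 := key (by
      intro i ω ω' hωω hω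
      rw [Set.Finite.mem_toFinset] at hω ⊢
      intro hg
      apply hω
      refine good_local hOadj hER (fun u v huv hn => ?_) hg
      exact (hωω s(u, v) (Finset.mem_filter.2 ⟨Finset.mem_univ _, u, v, rfl, huv, hn⟩)).symm)
      (by
        intro i
        exact he2 i)
      (by
        intro e
        have h1 := he3 e
        have h2 : 2 * (2 * k + 1) ^ (L + 4) ≤ (2 * k + 1) ^ (L + 5) := by
          rw [pow_succ (2 * k + 1) (L + 4), mul_comm]
          exact Nat.mul_le_mul_left _ (by have := hN.K1; omega)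
        refine le_trans (le_trans (le_of_eq ?_) h1) h2
        rw [card_eq, card_eq]
        congr 1
        ext v
        simp only [Finset.mem_filter, Finset.mem_univ, true_and])
      (by
        intro i
        rw [← Set.ncard_eq_toFinset_card, tot_eq]
        have h1 := hbad i
        unfold nc at h1
        have h2 : (0 : ℝ) ≤ 16 * (((2 * k + 1) ^ (L + 5) : ℕ) : ℝ) ^ 2 := by positivity
        refine (mul_le_mul_of_nonneg_right h1 h2).trans ?_
        have h3 := hN.tot
        have hb0 : (0 : ℝ) < (K : ℝ) ^ (3 * L + 12) := by positivity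
        push_cast
        calc (244 + ((L : ℝ) + 1) * (2 * (k : ℝ) + 1) ^ L) *
              (1 / (K : ℝ) ^ (3 * L + 12) * (Nat.card (Sym2 V → Fin K) : ℝ)) *
              (16 * ((2 * (k : ℝ) + 1) ^ (L + 5)) ^ 2) =
              ((244 + ((L : ℝ) + 1) * (2 * (k : ℝ) + 1) ^ L) *
              (16 * ((2 * (k : ℝ) + 1) ^ (L + 5)) ^ 2)) *
              (1 / (K : ℝ) ^ (3 * L + 12) * (Nat.card (Sym2 V → Fin K) : ℝ)) := by ring
          _ ≤ (K : ℝ) ^ (3 * L + 12) *
              (1 / (K : ℝ) ^ (3 * L + 12) * (Nat.card (Sym2 V → Fin K) : ℝ)) :=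
              mul_le_mul_of_nonneg_right h3 (by positivity)
          _ = _ := by field_simp)
    obtain ⟨ω, hω⟩ := key2
    refine ⟨ω, fun x => ?_⟩
    by_contra hno
    exact hω x ((Set.Finite.mem_toFinset _).2 hno)
  obtain ⟨ω, hω⟩ := hex
  obtain ⟨β, mm, h1, h2, h3, h4, h5⟩ := hkb C L (3 * L + 12) (20000 * (3 * L + 12)) m c δ D K k s M
    hc hc1 (hN.of_le (le_max_right _ _)) hP A Q V R E O hSt hO ω hω
  exact ⟨ω, β, mm, h1, h2, h3, h4, h5⟩

end Pool.Agent.C4N.H46
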