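import Pool.Agent.Helper46_C4N.Good

/-!
# SMP: the deterministic part
-/

set_option autoImplicit false
set_option linter.unusedSectionVars false

open scoped BigOperators Classical

noncomputable section

namespace Pool.Agent.C4N.H46

open Finset Pool.Agent.C4N
open Pool.Agent.C4W (outN inN NReg)

variable {V : Type} [Fintype V] {K : ℕ}

/-! ## degrees of the orientation -/

theorem od_add {R : SimpleGraph V} {O : V → V → Prop} (hO : Ori R O) (v : V) :
    dg R v = od O v + od (fun a b => O b a) v := by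
  have h1 : R.neighborSet v = {w | O v w} ∪ {w | O w v} := by
    ext w
    exact hO.adj v w
  have h2 : Disjoint {w | O v w} {w | O w v} := by
    rw [Set.disjoint_left]
    intro w h3 h4
    exact hO.asy v w h3 h4
  have h3 : ∀ P : V → Prop, {w | P w}.ncard = (univ.filter fun w => P w).card := by
    intro P
    rw [← Set.ncard_coe_finset]
    congr 1
    ext w
    simp
  unfold dg
  rw [h1, Set.ncard_union_eq h2 (Set.toFinite _) (Set.toFinite _), h3, h3]
  rfl

theorem od_bal {R : SimpleGraph V} {O : V → V → Prop} (hO : Ori R O) (v : V) :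
    od O v ≤ od (fun a b => O b a) v + 1 ∧ od (fun a b => O b a) v ≤ od O v + 1 := by
  have h3 : ∀ P : V → Prop, {w | P w}.ncard = (univ.filter fun w => P w).card := by
    intro P
    rw [← Set.ncard_coe_finset]
    congr 1
    ext w
    simp
  have := hO.bal v
  rw [h3, h3] at this
  exact this

theorem od_bounds {R : SimpleGraph V} {O : V → V → Prop} (hO : Ori R O) {C : ℕ}
    (hlo : ∀ v, 2 * K ≤ dg R v) (hhi : ∀ v, dg R v ≤ 2 * K + C) (b : Bool) (v : V) :
    K ≤ od (OO O b) v ∧ od (OO O b) v ≤ K + C ∧ (dg R v = 2 * K → od (OO O b) v = K) := by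
  have h1 := od_add hO v
  have h2 := od_bal hO v
  have h3 := hlo v
  have h4 := hhi v
  cases b
  · change K ≤ od (fun a b => O b a) v ∧ od (fun a b => O b a) v ≤ K + C ∧
      (dg R v = 2 * K → od (fun a b => O b a) v = K)
    omega
  · change K ≤ od O v ∧ od O v ≤ K + C ∧ (dg R v = 2 * K → od O v = K)
    omega

/-! ## parameters -/

/-- the numbers `m g` -/
def mg (K M s : ℕ) (g : Fin 40) : ℕ :=
  ⌈((s : ℝ) / 2 + ((K : ℝ) - 40 * s) / (M : ℝ) ^ (g : ℕ)) / M⌉₊

/-- the sum of the weights of the group `g` -/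
def Xg (K M k s : ℕ) (c : ℝ) (g : Fin 40) : ℝ :=
  M * (mg K M s g : ℝ) - (k : ℝ) ^ (-(c / 3)) - ((K : ℝ) - 40 * s) / (M : ℝ) ^ (g : ℕ)

/-- the mean weight -/
def h1g (K M k s : ℕ) (c : ℝ) (g : Fin 40) : ℝ := Xg K M k s c g / s

/-- the prescribed sum -/
def Ng (K M k s : ℕ) (c : ℝ) (g : Fin 40) : ℝ :=
  Xg K M k s c g + if g = 0 then (K : ℝ) - 40 * s else 0

/-- the base weights of the coins -/
def hg (K M k s : ℕ) (c : ℝ) (g : Fin 40) (t : Fin K) : ℝ :=
  if Tg K s g t then h1g K M k s c g else if g = 0 ∧ Tn K s t then 1 else 0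

theorem Xg_bounds {M k s : ℕ} {c : ℝ} (hM : 0 < M) (hk : 1 ≤ k) (hc : 0 < c)
    (hs : 40 * s ≤ K) (g : Fin 40) :
    (s : ℝ) / 2 - 1 ≤ Xg K M k s c g ∧ Xg K M k s c g ≤ (s : ℝ) / 2 + M := by
  have hMr : (0 : ℝ) < M := by exact_mod_cast hM
  have hk' : (0 : ℝ) ≤ (K : ℝ) - 40 * s := by
    have : ((40 * s : ℕ) : ℝ) ≤ K := by exact_mod_cast hs
    push_cast at this
    linarith
  have hnn : (0 : ℝ) ≤ ((s : ℝ) / 2 + ((K : ℝ) - 40 * s) / (M : ℝ) ^ (g : ℕ)) / M := by positivity
  have h1 := Nat.le_ceil (((s : ℝ) / 2 + ((K : ℝ) - 40 * s) / (M : ℝ) ^ (g : ℕ)) / M)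
  have h2 := Nat.ceil_lt_add_one hnn
  rw [div_le_iff₀ hMr] at h1
  have h3 : (M : ℝ) * (mg K M s g : ℝ) ≤
      (s : ℝ) / 2 + ((K : ℝ) - 40 * s) / (M : ℝ) ^ (g : ℕ) + M := by
    have h4 : (M : ℝ) * (mg K M s g : ℝ) ≤
        M * (((s : ℝ) / 2 + ((K : ℝ) - 40 * s) / (M : ℝ) ^ (g : ℕ)) / M + 1) :=
      mul_le_mul_of_nonneg_left h2.le hMr.le
    rw [mul_add, mul_div_cancel₀ _ hMr.ne', mul_one] at h4
    exact h4
  have h5 : (k : ℝ) ^ (-(c / 3)) ≤ 1 :=
    Real.rpow_le_one_of_one_le_of_nonpos (by exact_mod_cast hk) (by linarith)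
  have h6 : (0 : ℝ) ≤ (k : ℝ) ^ (-(c / 3)) := by positivity
  have h7 : (s : ℝ) / 2 + ((K : ℝ) - 40 * s) / (M : ℝ) ^ (g : ℕ) ≤ M * (mg K M s g : ℝ) := by
    rw [mul_comm (M : ℝ)]
    exact h1
  unfold Xg
  constructor <;> linarith

theorem hP_hg {O : V → V → Prop} {M k s : ℕ} {c : ℝ} (g : Fin 40) (ω : Sym2 V → Fin K) (x : V) :
    hP O (hg K M k s c g) ω x = h1g K M k s c g * cP O (Tg K s g) ω x +
      if g = 0 then cP O (Tn K s) ω x else 0 := by
  have hc : ∀ T : Fin K → Prop, cP O T ω x =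
      ∑ y ∈ univ.filter (fun y => O x y), if T (ω s(x, y)) then (1 : ℝ) else 0 := by
    intro T
    unfold cP
    rw [← Finset.sum_filter, Finset.filter_filter, Finset.sum_const, nsmul_eq_mul, mul_one]
  unfold hP
  have hnot : ∀ t : Fin K, Tg K s g t → ¬ Tn K s t := by
    intro t h1 h2
    unfold Tg at h1
    unfold Tn at h2
    rw [h1] at h2
    cases h2
  by_cases hg0 : g = 0
  · rw [if_pos hg0, hc, hc, Finset.mul_sum, ← Finset.sum_add_distrib]
    apply Finset.sum_congr rfl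
    intro y _
    unfold hg
    by_cases h1 : Tg K s g (ω s(x, y))
    · rw [if_pos h1, if_pos h1, if_neg (hnot _ h1)]
      ring
    · rw [if_neg h1, if_neg h1, mul_zero, zero_add]
      by_cases h2 : Tn K s (ω s(x, y))
      · rw [if_pos ⟨hg0, h2⟩, if_pos h2]
      · rw [if_neg (fun h => h2 h.2), if_neg h2]
  · rw [if_neg hg0, hc, Finset.mul_sum, add_zero]
    apply Finset.sum_congr rfl
    intro y _
    unfold hg
    by_cases h1 : Tg K s g (ω s(x, y))
    · rw [if_pos h1, if_pos h1, mul_one]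
    · rw [if_neg h1, if_neg h1, mul_zero, if_neg (fun h => hg0 h.1)]

/-! ## neighbourhoods -/

theorem outN_Og {O : V → V → Prop} {s : ℕ} {ω : Sym2 V → Fin K} (g : Fin 40) (x : V) :
    outN (Og O s ω g) x = univ.filter fun y => O x y ∧ Tg K s g (ω s(x, y)) := by
  ext y
  simp only [outN, Finset.mem_filter, Finset.mem_univ, true_and]
  exact Iff.rfl

theorem inN_Og {O : V → V → Prop} {s : ℕ} {ω : Sym2 V → Fin K} (g : Fin 40) (y : V) :
    inN (Og O s ω g) y = univ.filter fun x => O x y ∧ Tg K s g (ω s(x, y)) := by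
  ext x
  simp only [inN, Finset.mem_filter, Finset.mem_univ, true_and]
  exact Iff.rfl

theorem card_outN_Og {O : V → V → Prop} {s : ℕ} {ω : Sym2 V → Fin K} (g : Fin 40) (x : V) :
    ((outN (Og O s ω g) x).card : ℝ) = cP (OO O true) (Tg K s g) ω x := by
  rw [outN_Og]
  rfl

theorem card_inN_Og {O : V → V → Prop} {s : ℕ} {ω : Sym2 V → Fin K} (g : Fin 40) (x : V) :
    ((inN (Og O s ω g) x).card : ℝ) = cP (OO O false) (Tg K s g) ω x := by
  rw [inN_Og]
  unfold cP
  congr 2
  ext y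
  simp only [Finset.mem_filter, Finset.mem_univ, true_and]
  rw [Sym2.eq_swap]
  exact Iff.rfl

theorem card_outN_Rf {O : V → V → Prop} {s : ℕ} {ω : Sym2 V → Fin K} (x : V) :
    ((outN (Rf O s ω) x).card : ℝ) = cP (OO O true) (Tn K s) ω x := by
  unfold cP outN
  congr 2
  ext y
  simp only [Finset.mem_filter, Finset.mem_univ, true_and]
  exact Iff.rfl

theorem card_inN_Rf {O : V → V → Prop} {s : ℕ} {ω : Sym2 V → Fin K} (x : V) :
    ((inN (Rf O s ω) x).card : ℝ) = cP (OO O false) (Tn K s) ω x := by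
  unfold cP inN
  congr 2
  ext y
  simp only [Finset.mem_filter, Finset.mem_univ, true_and]
  rw [Sym2.eq_swap (a := x) (b := y)]
  exact Iff.rfl

/-- the deterministic part of SMP -/
theorem det (hbet : BETStmt) : ∃ k0 : ℕ, ∀ (C L b C1 m : ℕ) (c δ D : ℝ) (K k s M : ℕ),
    0 < c → c ≤ 1 / 1000 → Nm C L b C1 m k0 c δ D K k s → Prm K C M k s →
    ∀ A Q : ℝ, ∀ (V : Type) [Fintype V] (R E : SimpleGraph V) (O : V → V → Prop),
    St V R K C L c A Q → Ori R O → ∀ ω : Sym2 V → Fin K,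
    (∀ x, GoodAt R E O L C1 k s c δ A Q (hg K M k s c) (Ng K M k s c) (h1g K M k s c) ω x) →
    ∃ (β : Fin 40 → V → V → ℝ) (m : Fin 40 → ℕ),
    BI V k s M (c / 3) ((K : ℝ) - 40 * s) R (Rf O s ω) (Og O s ω) β m ∧
    (∀ g x, ((univ.filter fun y => (x, y) ∈ Og O s ω g ∧ dg R y ≠ 2 * K).card : ℝ) ≤
        s * (K : ℝ) ^ (-(c / 2)) ∧
      ((univ.filter fun y => (y, x) ∈ Og O s ω g ∧ dg R y ≠ 2 * K).card : ℝ) ≤
        s * (K : ℝ) ^ (-(c / 2))) ∧
    Cnt (w1 R s ω) L ((K : ℝ) ^ δ * A ^ L) (41 * s) Q ∧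
    (∀ x, ({y | R.Adj x y ∧ ∃ z, E.Adj y z ∧ typ K s (ω s(y, z)) ≠ none}.ncard : ℝ) ≤
      (K : ℝ) ^ (1 - 1 / 50000 : ℝ)) ∧
    ∀ x, {y | E.Adj x y ∧ typ K s (ω s(x, y)) ≠ none}.ncard ≤ C1 := by
  obtain ⟨k0, hk0⟩ := hbet
  refine ⟨k0, ?_⟩
  intro C L b C1 m c δ D K k s M hc hc1 hN hPr A Q V _ R E O hSt hO ω hgood
  have hOadj : ∀ x y, O x y → R.Adj x y := fun x y h => (hO.adj x y).2 (Or.inl h)
  have hk : k = K + C := hPr.hk
  have hK1 := hN.K1
  have hKr : (1 : ℝ) ≤ K := by exact_mod_cast hK1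
  have hKp : (0 : ℝ) < K := by linarith
  have hs41 := hN.s41
  have hs40 : 40 * s ≤ K := by omega
  have hs20 := hN.s20
  have hs0 : 0 < s := by omega
  have hsr : (20 : ℝ) ≤ s := by exact_mod_cast hs20
  have hsp : (0 : ℝ) < s := by linarith
  have hM0 : 0 < M := hPr.pr.pos
  have hk1 : 1 ≤ k := by omega
  have hMs : (M : ℝ) ≤ s / 20 := hPr.Mhi.trans hN.m54
  have hk'0 : (0 : ℝ) ≤ (K : ℝ) - 40 * s := by
    have : ((40 * s : ℕ) : ℝ) ≤ K := by exact_mod_cast hs40
    push_cast at this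
    linarith
  have hodb := fun b v => od_bounds (K := K) hO hSt.lo hSt.hi b v
  -- the base weights
  have hX := fun g => Xg_bounds (K := K) (k := k) hM0 hk1 hc hs40 g
  have hh1 : ∀ g, 9 / 20 ≤ h1g K M k s c g ∧ h1g K M k s c g ≤ 11 / 20 := by
    intro g
    obtain ⟨h1, h2⟩ := hX g
    unfold h1g
    constructor
    · rw [le_div_iff₀ hsp]
      linarith
    · rw [div_le_iff₀ hsp]
      linarith
  have hh01 : ∀ g t, 0 ≤ hg K M k s c g t ∧ hg K M k s c g t ≤ 1 := by
    intro g t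
    obtain ⟨h1, h2⟩ := hh1 g
    unfold hg
    split_ifs
    · constructor <;> linarith
    · exact ⟨zero_le_one, le_rfl⟩
    · exact ⟨le_rfl, zero_le_one⟩
  have hhT : ∀ g t, Tg K s g t → hg K M k s c g t = h1g K M k s c g := by
    intro g t ht
    unfold hg
    rw [if_pos ht]
  -- sizes
  have hdev : ∀ (p : ℝ), 0 ≤ p → p ≤ K → ∀ b x, |(od (OO O b) x : ℝ) * (p / K) - p| ≤ C := by
    intro p hp0 hpK b x
    obtain ⟨h1, h2, _⟩ := hodb b x
    have h1r : (K : ℝ) ≤ od (OO O b) x := by exact_mod_cast h1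
    have h2r : (od (OO O b) x : ℝ) ≤ K + C := by exact_mod_cast h2
    have e : (od (OO O b) x : ℝ) * (p / K) - p = ((od (OO O b) x : ℝ) - K) * (p / K) := by
      field_simp
    rw [e, abs_of_nonneg (mul_nonneg (by linarith) (by positivity))]
    have h3 : p / K ≤ 1 := (div_le_one hKp).2 hpK
    have h4 : 0 ≤ p / K := by positivity
    calc ((od (OO O b) x : ℝ) - K) * (p / K) ≤ ((od (OO O b) x : ℝ) - K) * 1 :=
          mul_le_mul_of_nonneg_left h3 (by linarith)
      _ ≤ C := by linarith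
  have hskr : (s : ℝ) ≤ K := by
    have : s ≤ K := by omega
    exact_mod_cast this
  have hcs : ∀ g b x, |cP (OO O b) (Tg K s g) ω x - s| ≤ (K : ℝ) ^ (0.51 : ℝ) + C := by
    intro g b x
    have h1 := (hgood x).cnt g b
    have h2 := hdev s hsp.le hskr b x
    have h3 := abs_add_le (cP (OO O b) (Tg K s g) ω x - (od (OO O b) x : ℝ) * ((s : ℝ) / K))
      ((od (OO O b) x : ℝ) * ((s : ℝ) / K) - s)
    rw [sub_add_sub_cancel] at h3
    linarith
  have hfs : ∀ b x, |cP (OO O b) (Tn K s) ω x - ((K : ℝ) - 40 * s)| ≤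
      (K : ℝ) ^ (0.51 : ℝ) + C := by
    intro b x
    have h1 := (hgood x).frc b
    have h2 := hdev ((K : ℝ) - 40 * s) hk'0 (by linarith) b x
    have h3 := abs_add_le (cP (OO O b) (Tn K s) ω x -
      (od (OO O b) x : ℝ) * (((K : ℝ) - 40 * s) / K))
      ((od (OO O b) x : ℝ) * (((K : ℝ) - 40 * s) / K) - ((K : ℝ) - 40 * s))
    rw [sub_add_sub_cancel] at h3
    linarith
  have ht0 : (0 : ℝ) ≤ (K : ℝ) ^ (0.51 : ℝ) + C := by positivity
  have ht6 := hN.t6
  have hNP : ∀ g b x, |Ng K M k s c g - hP (OO O b) (hg K M k s c g) ω x| ≤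
      (s : ℝ) ^ (0.6 : ℝ) := by
    intro g b x
    have h1 := hcs g b x
    have h2 := hfs b x
    obtain ⟨h3, h4⟩ := hh1 g
    have hXs : Xg K M k s c g = h1g K M k s c g * s := by
      unfold h1g
      rw [div_mul_cancel₀ _ hsp.ne']
    rw [hP_hg]
    unfold Ng
    rw [hXs]
    have h5 : |h1g K M k s c g * (s - cP (OO O b) (Tg K s g) ω x)| ≤
        (K : ℝ) ^ (0.51 : ℝ) + C := by
      rw [abs_mul, abs_sub_comm, abs_of_nonneg (by linarith)]
      calc _ ≤ 1 * |cP (OO O b) (Tg K s g) ω x - s| :=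
            mul_le_mul_of_nonneg_right (by linarith) (abs_nonneg _)
        _ ≤ _ := by rw [one_mul]; exact h1
    by_cases hg0 : g = 0
    · rw [if_pos hg0, if_pos hg0]
      have e : h1g K M k s c g * s + ((K : ℝ) - 40 * s) -
          (h1g K M k s c g * cP (OO O b) (Tg K s g) ω x + cP (OO O b) (Tn K s) ω x) =
          h1g K M k s c g * (s - cP (OO O b) (Tg K s g) ω x) -
            (cP (OO O b) (Tn K s) ω x - ((K : ℝ) - 40 * s)) := by ring
      rw [e]
      have := abs_sub (h1g K M k s c g * (s - cP (OO O b) (Tg K s g) ω x))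
        (cP (OO O b) (Tn K s) ω x - ((K : ℝ) - 40 * s))
      linarith
    · rw [if_neg hg0, if_neg hg0, add_zero, add_zero, ← mul_sub]
      linarith
  have hq1 := hN.c1
  have hq0 : (0 : ℝ) ≤ 3 * (K : ℝ) ^ (-c) := by positivity
  have hspx : ∀ g b x, ((univ.filter fun y => OO O b x y ∧ Tg K s g (ω s(x, y)) ∧
      dg R y ≠ 2 * K).card : ℝ) ≤ (3 * (K : ℝ) ^ (-c)) * s := by
    intro g b x
    have h1 := (hgood x).sp g b
    have h2 : {y | OO O b x y ∧ Tg K s g (ω s(x, y)) ∧ dg R y ≠ 2 * K} =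
        {y | (OO O b x y ∧ dg R y ≠ 2 * K) ∧ Tg K s g (ω s(x, y))} := by
      ext y
      simp only [Set.mem_ofPred_eq]
      tauto
    rw [card_eq, h2]
    linarith
  have hkey : ∀ g, ∃ β : V → V → ℝ, (∀ x y, 3 / 10 ≤ β x y ∧ β x y ≤ 7 / 10) ∧
    (∀ x, |(∑ y ∈ univ.filter (fun y => O x y ∧ Tg K s g (ω s(x, y))), β x y) +
      (hP O (hg K M k s c g) ω x - h1g K M k s c g * cP O (Tg K s g) ω x) - Ng K M k s c g| ≤
        (k : ℝ) ^ (-0.3 : ℝ) + 100 * C * (3 * (K : ℝ) ^ (-c))) ∧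
    ∀ y, |(∑ x ∈ univ.filter (fun x => O x y ∧ Tg K s g (ω s(x, y))), β x y) +
      (hP (fun u v => O v u) (hg K M k s c g) ω y -
        h1g K M k s c g * cP (fun u v => O v u) (Tg K s g) ω y) - Ng K M k s c g| ≤
        (k : ℝ) ^ (-0.3 : ℝ) + 100 * C * (3 * (K : ℝ) ^ (-c)) := by
    intro g
    refine hk0 k K s C hN.k0le hN.kK hK1 hN.slo hN.shi V O
      (fun x => ⟨(hodb true x).1, (hodb true x).2.1⟩)
      (fun x => ⟨(hodb false x).1, (hodb false x).2.1⟩)
      (Tg K s g) (hg K M k s c g) (Ng K M k s c g) (h1g K M k s c g) (3 * (K : ℝ) ^ (-c))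
      (hh01 g) (hhT g) (hh1 g).1 (hh1 g).2 hq0 hq1 ω ?_ ?_ ?_ ?_
    · intro x
      have h1 := hcs g true x
      have h2 := hcs g false x
      exact ⟨by refine h1.trans ?_; linarith, by refine h2.trans ?_; linarith⟩
    · intro x
      exact ⟨hNP g true x, hNP g false x⟩
    · intro x
      exact ⟨((hgood x).fr g true).le, ((hgood x).fr g false).le⟩
    · intro y
      constructor
      · refine le_trans ?_ (hspx g false y)
        have : (univ.filter fun x => O x y ∧ Tg K s g (ω s(x, y)) ∧ od O x ≠ K) ⊆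
            univ.filter fun x => OO O false y x ∧ Tg K s g (ω s(y, x)) ∧ dg R x ≠ 2 * K := by
          intro x hx
          rw [Finset.mem_filter] at hx ⊢
          refine ⟨hx.1, hx.2.1, ?_, ?_⟩
          · rw [Sym2.eq_swap]; exact hx.2.2.1
          · intro h; exact hx.2.2.2 ((hodb true x).2.2 h)
        exact_mod_cast Finset.card_le_card this
      · refine le_trans ?_ (hspx g true y)
        have : (univ.filter fun x => O y x ∧ Tg K s g (ω s(y, x)) ∧
            od (fun u v => O v u) x ≠ K) ⊆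
            univ.filter fun x => OO O true y x ∧ Tg K s g (ω s(y, x)) ∧ dg R x ≠ 2 * K := by
          intro x hx
          rw [Finset.mem_filter] at hx ⊢
          refine ⟨hx.1, hx.2.1, hx.2.2.1, ?_⟩
          intro h; exact hx.2.2.2 ((hodb false x).2.2 h)
        exact_mod_cast Finset.card_le_card this
  choose β hβ1 hβ2 hβ3 using hkey
  have herr := hN.err
  have hN0 : Ng K M k s c 0 = M * (mg K M s 0 : ℝ) - (k : ℝ) ^ (-(c / 3)) := by
    unfold Ng Xg
    rw [if_pos rfl]
    simp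
  have hNg : ∀ g : Fin 40, g ≠ 0 → Ng K M k s c g = M * (mg K M s g : ℝ) - (k : ℝ) ^ (-(c / 3)) -
      ((K : ℝ) - 40 * s) / (M : ℝ) ^ (g : ℕ) := by
    intro g hg0
    unfold Ng Xg
    rw [if_neg hg0, add_zero]
  refine ⟨β, mg K M s, ?_, ?_, ?_, fun x => (hgood x).nbr, ?_⟩
  · refine ⟨hSt.c4, ?_, ?_, ?_, ?_, ?_, ?_, ?_, fun g => hβ1 g, ?_, ?_, ?_, ?_, ?_⟩
    · intro x
      have := hSt.hi x
      omega
    · rintro p (h | ⟨g, h⟩)
      · exact hOadj _ _ h.1
      · exact hOadj _ _ h.1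
    · have h1 : ∀ p : V × V, (p ∈ Rf O s ω ∨ ∃ g, p ∈ Og O s ω g) → O p.1 p.2 := by
        rintro p (h | ⟨g, h⟩)
        · exact h.1
        · exact h.1
      intro p hp hp'
      exact hO.asy _ _ (h1 p hp) (h1 p.swap hp')
    · intro x
      constructor
      · have h1 : outN (Rf O s ω ∪ ⋃ g, Og O s ω g) x ⊆ univ.filter fun y => OO O true x y := by
          intro y hy
          simp only [outN, Finset.mem_filter, Finset.mem_univ, true_and] at hy
          rw [Finset.mem_filter]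
          refine ⟨Finset.mem_univ _, ?_⟩
          rcases hy with h | h
          · exact h.1
          · obtain ⟨g, h⟩ := Set.mem_iUnion.1 h
            exact h.1
        have h2 := Finset.card_le_card h1
        have h3 := (hodb true x).2.1
        unfold od at h3
        omega
      · have h1 : inN (Rf O s ω ∪ ⋃ g, Og O s ω g) x ⊆ univ.filter fun y => OO O false x y := by
          intro y hy
          simp only [inN, Finset.mem_filter, Finset.mem_univ, true_and] at hy
          rw [Finset.mem_filter]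
          refine ⟨Finset.mem_univ _, ?_⟩
          rcases hy with h | h
          · exact h.1
          · obtain ⟨g, h⟩ := Set.mem_iUnion.1 h
            exact h.1
        have h2 := Finset.card_le_card h1
        have h3 := (hodb false x).2.1
        unfold od at h3
        omega
    · intro g
      rw [Set.disjoint_left]
      rintro p ⟨_, h1⟩ ⟨_, h2⟩
      rw [h1] at h2
      cases h2
    · intro g g' hgg
      rw [Set.disjoint_left]
      rintro p ⟨_, h1⟩ ⟨_, h2⟩
      rw [h1] at h2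
      exact hgg (Option.some_inj.1 h2)
    · intro g x
      rw [card_outN_Og, card_inN_Og]
      exact ⟨(hcs g true x).trans hN.t4, (hcs g false x).trans hN.t4⟩
    · intro x
      rw [card_outN_Rf, card_inN_Rf]
      exact ⟨(hfs true x).trans hN.t52, (hfs false x).trans hN.t52⟩
    · intro x
      rw [card_outN_Rf, outN_Og]
      have h1 := hβ2 0 x
      rw [hP_hg, if_pos rfl, hN0] at h1
      refine le_trans (le_of_eq ?_) (h1.trans herr)
      congr 1
      change cP O (Tn K s) ω x + _ - _ = _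
      ring
    · intro x
      rw [card_inN_Rf, inN_Og]
      have h1 := hβ3 0 x
      rw [hP_hg, if_pos rfl, hN0] at h1
      refine le_trans (le_of_eq ?_) (h1.trans herr)
      congr 1
      change cP (fun u v => O v u) (Tn K s) ω x + _ - _ = _
      ring
    · intro g hg0 x
      rw [outN_Og]
      have h1 := hβ2 g x
      rw [hP_hg, if_neg hg0, hNg g hg0] at h1
      refine le_trans (le_of_eq ?_) (h1.trans herr)
      congr 1
      ring
    · intro g hg0 x
      rw [inN_Og]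
      have h1 := hβ3 g x
      rw [hP_hg, if_neg hg0, hNg g hg0] at h1
      refine le_trans (le_of_eq ?_) (h1.trans herr)
      congr 1
      ring
  · intro g x
    have hle : (3 * (K : ℝ) ^ (-c)) * s ≤ s * (K : ℝ) ^ (-(c / 2)) := by
      rw [mul_comm]
      exact mul_le_mul_of_nonneg_left hN.c2 hsp.le
    constructor
    · refine le_trans ?_ ((hspx g true x).trans hle)
      have : (univ.filter fun y => (x, y) ∈ Og O s ω g ∧ dg R y ≠ 2 * K) ⊆
          univ.filter fun y => OO O true x y ∧ Tg K s g (ω s(x, y)) ∧ dg R y ≠ 2 * K := by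
        intro y hy
        rw [Finset.mem_filter] at hy ⊢
        exact ⟨hy.1, hy.2.1.1, hy.2.1.2, hy.2.2⟩
      exact_mod_cast Finset.card_le_card this
    · refine le_trans ?_ ((hspx g false x).trans hle)
      have : (univ.filter fun y => (y, x) ∈ Og O s ω g ∧ dg R y ≠ 2 * K) ⊆
          univ.filter fun y => OO O false x y ∧ Tg K s g (ω s(x, y)) ∧ dg R y ≠ 2 * K := by
        intro y hy
        rw [Finset.mem_filter] at hy ⊢
        refine ⟨hy.1, hy.2.1.1, ?_, hy.2.2⟩
        rw [Sym2.eq_swap]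
        exact hy.2.1.2
      exact_mod_cast Finset.card_le_card this
  · intro a x y ha haL hxy
    exact (hgood x).pth a y ha haL hxy
  · intro x
    have h1 := (hgood x).edg
    exact h1

end Pool.Agent.C4N.H46
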