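import Pool.Agent.Helper46_C4N.Num
import Pool.Agent.Helper76_LAG.Near

/-!
# SMP: good coins at a vertex, and their locality
-/

set_option autoImplicit false
set_option linter.unusedSectionVars false

open scoped BigOperators Classical

noncomputable section

namespace Pool.Agent.C4N.H46

open Finset Pool.Agent.C4N
open Pool.Agent.LAG (near near_refl near_symm near_mono near_trans near_adj)
open Pool.Agent.Helper13_Conc (mean)

theorem card_eq {Ω : Type*} (i : Fintype Ω) (P : Ω → Prop) (j : DecidablePred P) :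
    (@Finset.filter Ω P j (@Finset.univ Ω i)).card = {ω | P ω}.ncard := by
  rw [← Set.ncard_coe_finset]
  congr 1
  ext ω
  simp

theorem tot_eq {Ω : Type*} (i : Fintype Ω) : @Fintype.card Ω i = Nat.card Ω :=
  Nat.card_eq_fintype_card.symm

variable {V : Type} [Fintype V] {K : ℕ}

/-- the orientation or its reverse -/
def OO (O : V → V → Prop) : Bool → V → V → Prop
  | true => O
  | false => fun u v => O v u

/-- coins of the group `g` -/
def Tg (K s : ℕ) (g : Fin 40) (t : Fin K) : Prop := typ K s t = some g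

/-- forced coins -/
def Tn (K s : ℕ) (t : Fin K) : Prop := typ K s t = none

/-- good coins at the vertex `x` -/
structure GoodAt (R E : SimpleGraph V) (O : V → V → Prop) (L C1 k s : ℕ) (c δ A Q : ℝ)
    (h : Fin 40 → Fin K → ℝ) (N h1 : Fin 40 → ℝ) (ω : Sym2 V → Fin K) (x : V) : Prop where
  cnt : ∀ g b, |cP (OO O b) (Tg K s g) ω x - (od (OO O b) x : ℝ) * ((s : ℝ) / K)| <
    (K : ℝ) ^ (0.51 : ℝ)
  frc : ∀ b, |cP (OO O b) (Tn K s) ω x - (od (OO O b) x : ℝ) * (((K : ℝ) - 40 * s) / K)| <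
    (K : ℝ) ^ (0.51 : ℝ)
  fr : ∀ g b, |Fr (OO O b) (Tg K s g) (h g) s (N g) (h1 g) ω x| < (k : ℝ) ^ (-0.45 : ℝ)
  sp : ∀ g b, ({y | (OO O b x y ∧ dg R y ≠ 2 * K) ∧ Tg K s g (ω s(x, y))}.ncard : ℝ) <
    3 * (s * (K : ℝ) ^ (-c))
  pth : ∀ a y, 1 ≤ a → a ≤ L → (x ≠ y ∨ 3 ≤ a) →
    npw (w1 R s ω) a x y ≤ (K : ℝ) ^ δ * A ^ L * max 1 ((41 * s : ℝ) ^ a / Q)
  edg : {y | E.Adj x y ∧ ¬ Tn K s (ω s(x, y))}.ncard ≤ C1
  nbr : ({y | R.Adj x y ∧ ∃ z, E.Adj y z ∧ ¬ Tn K s (ω s(y, z))}.ncard : ℝ) ≤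
    (K : ℝ) ^ (1 - 1 / 50000 : ℝ)

/-! ## locality -/

theorem cP_congr {O : V → V → Prop} {T : Fin K → Prop} {ω ω' : Sym2 V → Fin K} {x : V}
    (h : ∀ y, O x y → ω s(x, y) = ω' s(x, y)) : cP O T ω x = cP O T ω' x := by
  unfold cP
  congr 2
  apply Finset.filter_congr
  intro y _
  constructor
  · rintro ⟨h1, h2⟩
    exact ⟨h1, by rw [← h y h1]; exact h2⟩
  · rintro ⟨h1, h2⟩
    exact ⟨h1, by rw [h y h1]; exact h2⟩

theorem hP_congr {O : V → V → Prop} {h : Fin K → ℝ} {ω ω' : Sym2 V → Fin K} {x : V}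
    (hh : ∀ y, O x y → ω s(x, y) = ω' s(x, y)) : hP O h ω x = hP O h ω' x := by
  unfold hP
  apply Finset.sum_congr rfl
  intro y hy
  rw [hh y (Finset.mem_filter.1 hy).2]

theorem GP_congr {O : V → V → Prop} {T : Fin K → Prop} {h : Fin K → ℝ} {s : ℕ} {N : ℝ}
    {ω ω' : Sym2 V → Fin K} {x : V}
    (hh : ∀ y, O x y → ω s(x, y) = ω' s(x, y)) : GP O T h s N ω x = GP O T h s N ω' x := by
  unfold GP
  rw [cP_congr hh, hP_congr hh]

theorem Fr_congr {R : SimpleGraph V} {O : V → V → Prop} (hO : ∀ x y, O x y → R.Adj x y)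
    {T : Fin K → Prop} {h : Fin K → ℝ} {s : ℕ} {N h1 : ℝ} {ω ω' : Sym2 V → Fin K} {x : V}
    (hh : ∀ u v, R.Adj u v → near R 2 x u → ω s(u, v) = ω' s(u, v)) :
    Fr O T h s N h1 ω x = Fr O T h s N h1 ω' x := by
  have hx : near R 2 x x := near_refl 2 x
  have hy : ∀ y, O x y → near R 1 x y := fun y h => near_adj (hO x y h)
  have hy2 : ∀ y, O x y → near R 2 x y := fun y h => near_mono (by norm_num) (hy y h)
  have hx' : ∀ y x', O x y → O x' y → near R 2 x x' := fun y x' h h' =>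
    near_trans (hy y h) (near_symm (near_adj (hO x' y h')))
  have e : ∀ x' y, O x' y → near R 2 x x' → ω s(x', y) = ω' s(x', y) := fun x' y h hn =>
    hh x' y (hO x' y h) hn
  unfold Fr
  have hf : (univ.filter fun y => O x y ∧ T (ω s(x, y))) =
      univ.filter fun y => O x y ∧ T (ω' s(x, y)) := by
    apply Finset.filter_congr
    intro y _
    constructor
    · rintro ⟨h1, h2⟩
      exact ⟨h1, by rw [← e x y h1 hx]; exact h2⟩
    · rintro ⟨h1, h2⟩
      exact ⟨h1, by rw [e x y h1 hx]; exact h2⟩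
  rw [hf]
  apply Finset.sum_congr rfl
  intro y hyy
  have hxy := (Finset.mem_filter.1 hyy).2.1
  have h2 : cP (fun u v => O v u) T ω y = cP (fun u v => O v u) T ω' y := by
    apply cP_congr
    intro z hz
    exact hh y z (hO z y hz).symm (hy2 y hxy)
  rw [h2]
  congr 1
  have hf2 : (univ.filter fun x' => x' ≠ x ∧ O x' y ∧ T (ω s(x', y))) =
      univ.filter fun x' => x' ≠ x ∧ O x' y ∧ T (ω' s(x', y)) := by
    apply Finset.filter_congr
    intro z _
    constructor
    · rintro ⟨h0, h1, h2⟩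
      exact ⟨h0, h1, by rw [← e z y h1 (hx' y z hxy h1)]; exact h2⟩
    · rintro ⟨h0, h1, h2⟩
      exact ⟨h0, h1, by rw [e z y h1 (hx' y z hxy h1)]; exact h2⟩
  rw [hf2]
  apply Finset.sum_congr rfl
  intro x' hx'm
  have hx'y := (Finset.mem_filter.1 hx'm).2.2.1
  congr 1
  apply GP_congr
  intro z hz
  exact e x' z hz (hx' y x' hxy hx'y)

theorem w1_nonneg (R : SimpleGraph V) (s : ℕ) (ω : Sym2 V → Fin K) (x y : V) :
    0 ≤ w1 R s ω x y := by
  unfold w1
  split_ifs <;> positivity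

theorem w1_zero {R : SimpleGraph V} {s : ℕ} {ω : Sym2 V → Fin K} {x y : V} (h : ¬ R.Adj x y) :
    w1 R s ω x y = 0 := by
  unfold w1
  rw [if_neg h]

theorem near_path {R : SimpleGraph V} {a : ℕ} {z : Fin (a + 1) → V}
    (h : ∀ i : Fin a, R.Adj (z i.castSucc) (z i.succ)) (i : Fin (a + 1)) :
    near R i.1 (z 0) (z i) := by
  induction i using Fin.induction with
  | zero => exact near_refl _ _
  | succ i ih =>
    have h1 := near_trans ih (near_adj (h i))
    simpa using h1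

theorem npw_congr {R : SimpleGraph V} {s L a : ℕ} (ha : a ≤ L) {ω ω' : Sym2 V → Fin K} {x y : V}
    (hh : ∀ u v, R.Adj u v → near R L x u → ω s(u, v) = ω' s(u, v)) :
    npw (w1 R s ω) a x y = npw (w1 R s ω') a x y := by
  unfold npw
  apply Finset.sum_congr rfl
  intro z hz
  have hz0 : z 0 = x := (Finset.mem_filter.1 hz).2.1
  by_cases hall : ∀ i : Fin a, R.Adj (z i.castSucc) (z i.succ)
  · apply Finset.prod_congr rfl
    intro i _
    have h1 := near_path hall i.castSucc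
    rw [hz0] at h1
    have h2 := hh _ _ (hall i) (near_mono (by
      have := i.2
      simp only [Fin.val_castSucc]
      omega) h1)
    unfold w1
    rw [h2]
  · push Not at hall
    obtain ⟨i, hi⟩ := hall
    have e : ∀ ω : Sym2 V → Fin K, ∏ i : Fin a, w1 R s ω (z i.castSucc) (z i.succ) = 0 :=
      fun ω => Finset.prod_eq_zero (Finset.mem_univ i) (w1_zero hi)
    rw [e, e]

theorem npw_far {R : SimpleGraph V} {s L a : ℕ} (ha : a ≤ L) {ω : Sym2 V → Fin K} {x y : V}
    (hy : ¬ near R L x y) : npw (w1 R s ω) a x y = 0 := by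
  unfold npw
  apply Finset.sum_eq_zero
  intro z hz
  have hz0 : z 0 = x := (Finset.mem_filter.1 hz).2.1
  have hz1 : z (Fin.last a) = y := (Finset.mem_filter.1 hz).2.2.1
  by_cases hall : ∀ i : Fin a, R.Adj (z i.castSucc) (z i.succ)
  · exfalso
    apply hy
    have h1 := near_path hall (Fin.last a)
    rw [hz0, hz1] at h1
    exact near_mono (by simpa using ha) h1
  · push Not at hall
    obtain ⟨i, hi⟩ := hall
    exact Finset.prod_eq_zero (Finset.mem_univ i) (w1_zero hi)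

/-- goodness at `x` depends only on the coins near `x` -/
theorem good_local {R E : SimpleGraph V} {O : V → V → Prop} (hO : ∀ x y, O x y → R.Adj x y)
    (hE : E ≤ R) {L C1 k s : ℕ} {c δ A Q : ℝ} {h : Fin 40 → Fin K → ℝ} {N h1 : Fin 40 → ℝ}
    {ω ω' : Sym2 V → Fin K} {x : V}
    (hh : ∀ u v, R.Adj u v → near R (L + 4) x u → ω s(u, v) = ω' s(u, v))
    (hg : GoodAt R E O L C1 k s c δ A Q h N h1 ω x) :
    GoodAt R E O L C1 k s c δ A Q h N h1 ω' x := by
  have hOb : ∀ b x y, OO O b x y → R.Adj x y := by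
    intro b x y hb
    cases b
    · exact (hO y x hb).symm
    · exact hO x y hb
  have hx : ∀ y, R.Adj x y → ω s(x, y) = ω' s(x, y) := fun y hy => hh x y hy (near_refl _ _)
  refine ⟨?_, ?_, ?_, ?_, ?_, ?_, ?_⟩
  · intro g b
    rw [← cP_congr (ω := ω) fun y hy => hx y (hOb b x y hy)]
    exact hg.cnt g b
  · intro b
    rw [← cP_congr (ω := ω) fun y hy => hx y (hOb b x y hy)]
    exact hg.frc b
  · intro g b
    rw [← Fr_congr (hOb b) (ω := ω) fun u v huv hn => hh u v huv (near_mono (by omega) hn)]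
    exact hg.fr g b
  · intro g b
    have h2 : {y | (OO O b x y ∧ dg R y ≠ 2 * K) ∧ Tg K s g (ω' s(x, y))} =
        {y | (OO O b x y ∧ dg R y ≠ 2 * K) ∧ Tg K s g (ω s(x, y))} := by
      ext y
      constructor
      · rintro ⟨h3, h4⟩
        exact ⟨h3, by rw [hx y (hOb b x y h3.1)]; exact h4⟩
      · rintro ⟨h3, h4⟩
        exact ⟨h3, by rw [← hx y (hOb b x y h3.1)]; exact h4⟩
    rw [h2]
    exact hg.sp g b
  · intro a y ha haL hxy
    rw [← npw_congr haL (ω := ω) fun u v huv hn => hh u v huv (near_mono (by omega) hn)]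
    exact hg.pth a y ha haL hxy
  · have h2 : {y | E.Adj x y ∧ ¬ Tn K s (ω' s(x, y))} =
        {y | E.Adj x y ∧ ¬ Tn K s (ω s(x, y))} := by
      ext y
      constructor
      · rintro ⟨h3, h4⟩
        exact ⟨h3, by rw [hx y (hE h3)]; exact h4⟩
      · rintro ⟨h3, h4⟩
        exact ⟨h3, by rw [← hx y (hE h3)]; exact h4⟩
    rw [h2]
    exact hg.edg
  · have h2 : {y | R.Adj x y ∧ ∃ z, E.Adj y z ∧ ¬ Tn K s (ω' s(y, z))} =
        {y | R.Adj x y ∧ ∃ z, E.Adj y z ∧ ¬ Tn K s (ω s(y, z))} := by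
      have e : ∀ y z, R.Adj x y → E.Adj y z → ω s(y, z) = ω' s(y, z) := fun y z hxy hyz =>
        hh y z (hE hyz) (near_mono (by omega) (near_adj hxy))
      ext y
      constructor
      · rintro ⟨h3, z, h4, h5⟩
        exact ⟨h3, z, h4, by rw [e y z h3 h4]; exact h5⟩
      · rintro ⟨h3, z, h4, h5⟩
        exact ⟨h3, z, h4, by rw [← e y z h3 h4]; exact h5⟩
    rw [h2]
    exact hg.nbr

/-! ## counting coins -/

theorem typ_some_iff {s : ℕ} (hs : 0 < s) (t : Fin K) (g : Fin 40) :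
    typ K s t = some g ↔ g.1 * s ≤ t.1 ∧ t.1 < (g.1 + 1) * s := by
  unfold typ
  have h1 : t.1 / s = g.1 ↔ g.1 * s ≤ t.1 ∧ t.1 < (g.1 + 1) * s := by
    rw [Nat.div_eq_iff hs]
    have e : (g.1 + 1) * s = g.1 * s + s := by ring
    rw [e]
    omega
  rw [← h1]
  by_cases hlt : t.1 / s < 40
  · rw [dif_pos hlt, Option.some_inj]
    constructor
    · intro h; rw [← h]
    · intro h; exact Fin.ext h
  · rw [dif_neg hlt]
    constructor
    · intro h; cases h
    · intro h
      have := g.2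
      omega

theorem typ_none_iff {s : ℕ} (hs : 0 < s) (t : Fin K) : typ K s t = none ↔ 40 * s ≤ t.1 := by
  unfold typ
  have h1 : t.1 / s < 40 ↔ t.1 < 40 * s := Nat.div_lt_iff_lt_mul hs
  by_cases hlt : t.1 / s < 40
  · rw [dif_pos hlt]
    have := h1.1 hlt
    constructor
    · intro h; cases h
    · intro h; omega
  · rw [dif_neg hlt]
    rw [h1] at hlt
    constructor
    · intro _; omega
    · intro _; rfl

theorem card_Tg {s : ℕ} (hs : 0 < s) (hK : 40 * s ≤ K) (g : Fin 40) :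
    (univ.filter (Tg K s g)).card = s := by
  have h1 : ((univ.filter (Tg K s g)).map Fin.valEmbedding) =
      Finset.Ico (g.1 * s) ((g.1 + 1) * s) := by
    ext n
    rw [Finset.mem_map, Finset.mem_Ico]
    constructor
    · rintro ⟨t, ht, rfl⟩
      exact (typ_some_iff hs t g).1 (Finset.mem_filter.1 ht).2
    · intro hn
      have hlt : n < K := by
        have h3 : (g.1 + 1) * s ≤ 40 * s := Nat.mul_le_mul_right _ (by have := g.2; omega)
        omega
      exact ⟨⟨n, hlt⟩, Finset.mem_filter.2 ⟨Finset.mem_univ _, (typ_some_iff hs _ g).2 hn⟩, rfl⟩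
  have h2 := congrArg Finset.card h1
  rw [Finset.card_map, Nat.card_Ico] at h2
  rw [h2]
  have e : (g.1 + 1) * s = g.1 * s + s := by ring
  omega

theorem card_Tn {s : ℕ} (hs : 0 < s) : (univ.filter (Tn K s)).card = K - 40 * s := by
  have h1 : ((univ.filter (Tn K s)).map Fin.valEmbedding) = Finset.Ico (40 * s) K := by
    ext n
    rw [Finset.mem_map, Finset.mem_Ico]
    constructor
    · rintro ⟨t, ht, rfl⟩
      exact ⟨(typ_none_iff hs t).1 (Finset.mem_filter.1 ht).2, t.2⟩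
    · intro hn
      exact ⟨⟨n, hn.2⟩, Finset.mem_filter.2 ⟨Finset.mem_univ _, (typ_none_iff hs _).2 hn.1⟩, rfl⟩
  have h2 := congrArg Finset.card h1
  rw [Finset.card_map, Nat.card_Ico] at h2
  exact h2

theorem card_not_Tn {s : ℕ} (hs : 0 < s) (hK : 40 * s ≤ K) :
    (univ.filter fun t => ¬ Tn K s t).card = 40 * s := by
  have h1 := Finset.card_filter_add_card_filter_not (s := (univ : Finset (Fin K))) (Tn K s)
  rw [card_Tn hs, Finset.card_univ, Fintype.card_fin] at h1
  omega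

theorem nc_Tg {s : ℕ} (hs : 0 < s) (hK : 40 * s ≤ K) (g : Fin 40) :
    {t : Fin K | Tg K s g t}.ncard = s := by
  rw [← card_eq inferInstance _ (fun _ => Classical.propDecidable _)]
  exact card_Tg hs hK g

theorem nc_Tn {s : ℕ} (hs : 0 < s) : {t : Fin K | Tn K s t}.ncard = K - 40 * s := by
  rw [← card_eq inferInstance _ (fun _ => Classical.propDecidable _)]
  exact card_Tn hs

theorem nc_not_Tn {s : ℕ} (hs : 0 < s) (hK : 40 * s ≤ K) :
    {t : Fin K | ¬ Tn K s t}.ncard = 40 * s := by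
  rw [← card_not_Tn hs hK, card_eq]

theorem cP_nc {O : V → V → Prop} {T : Fin K → Prop} (ω : Sym2 V → Fin K) (x : V) :
    cP O T ω x = ({y | O x y ∧ T (ω s(x, y))}.ncard : ℝ) := by
  unfold cP
  rw [card_eq]

theorem od_nc (O : V → V → Prop) (x : V) : od O x = {y | O x y}.ncard := by
  unfold od
  rw [card_eq]

end Pool.Agent.C4N.H46
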