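import Pool.Agent.C4N.Stm

/-!
# SMP: the numerical facts
-/

set_option autoImplicit false
set_option linter.unusedVariables false

open scoped BigOperators
open Filter

noncomputable section

namespace Pool.Agent.C4N.H46

open Pool.Agent.C4N

theorem ev_pow {a : ℝ} (ha : 0 < a) (B : ℝ) : ∀ᶠ K : ℕ in atTop, B ≤ (K : ℝ) ^ a :=
  ((tendsto_rpow_atTop ha).comp tendsto_natCast_atTop_atTop).eventually_ge_atTop B

theorem ev_exp {a : ℝ} (ha : 0 < a) {c : ℝ} (hc : 0 < c) (b : ℕ) :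
    ∀ᶠ K : ℕ in atTop, 2 * Real.exp (-(c * (K : ℝ) ^ a)) ≤ 1 / (K : ℝ) ^ b := by
  have h1 := isLittleO_exp_neg_mul_rpow_atTop hc (-((b : ℝ) / a))
  have h2 := h1.bound (show (0 : ℝ) < 1 / 2 by norm_num)
  have h3 : Tendsto (fun K : ℕ => (K : ℝ) ^ a) atTop atTop :=
    (tendsto_rpow_atTop ha).comp tendsto_natCast_atTop_atTop
  filter_upwards [h3.eventually h2, eventually_ge_atTop 1] with K hK hK1
  have hK0 : (0 : ℝ) < K := by exact_mod_cast hK1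
  rw [Real.norm_eq_abs, Real.norm_eq_abs, abs_of_pos (Real.exp_pos _),
    abs_of_nonneg (Real.rpow_nonneg (Real.rpow_nonneg hK0.le _) _), ← Real.rpow_mul hK0.le] at hK
  have e : a * -((b : ℝ) / a) = -(b : ℝ) := by field_simp
  rw [e, Real.rpow_neg hK0.le, Real.rpow_natCast, neg_mul] at hK
  rw [one_div]
  linarith

/-- the numerical facts -/
structure Nm (C L b C1 m k0 : ℕ) (c δ D : ℝ) (K k s : ℕ) : Prop where
  K1 : 1 ≤ K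
  kK : K ≤ k
  k2 : k ≤ 2 * K
  k0le : k0 ≤ k
  s41 : 41 * s ≤ K
  slo : (k : ℝ) ^ (0.99 : ℝ) ≤ s
  shi : s ≤ k
  s20 : 20 ≤ s
  ecnt : 2 * Real.exp (-(((K : ℝ) ^ (0.51 : ℝ)) ^ 2 / (2 * k))) ≤ 1 / (K : ℝ) ^ b
  efr : Real.exp (-(k : ℝ) ^ (0.01 : ℝ)) ≤ 1 / (K : ℝ) ^ b
  esp : Real.exp (-(s * (K : ℝ) ^ (-c))) ≤ 1 / (K : ℝ) ^ b
  epth : (D / (K : ℝ) ^ δ) ^ m ≤ 1 / (K : ℝ) ^ b
  eedg : ((K : ℝ) ^ (1 / 50000 : ℝ) * (40 * s / K)) ^ (C1 + 1) ≤ 1 / (K : ℝ) ^ b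
  esq : Real.exp (-(K : ℝ) ^ (1 / 2 : ℝ)) ≤ 1 / (K : ℝ) ^ b
  nb : 2 * (2 * ((2 * k) * (K : ℝ) ^ (1 / 50000 : ℝ) * (40 * s / K)) + (K : ℝ) ^ (1 / 2 : ℝ)) <
    (K : ℝ) ^ (1 - 1 / 50000 : ℝ)
  tot : (244 + (L + 1) * (2 * (k : ℝ) + 1) ^ L) * (16 * ((2 * (k : ℝ) + 1) ^ (L + 5)) ^ 2) ≤
    (K : ℝ) ^ b
  t52 : (K : ℝ) ^ (0.51 : ℝ) + C ≤ (k : ℝ) ^ (0.52 : ℝ)
  t4 : (K : ℝ) ^ (0.51 : ℝ) + C ≤ s * (k : ℝ) ^ (-0.4 : ℝ)
  t6 : 2 * ((K : ℝ) ^ (0.51 : ℝ) + C) ≤ (s : ℝ) ^ (0.6 : ℝ)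
  c1 : 3 * (K : ℝ) ^ (-c) ≤ 1
  c2 : 3 * (K : ℝ) ^ (-c) ≤ (K : ℝ) ^ (-(c / 2))
  err : (k : ℝ) ^ (-0.3 : ℝ) + 100 * C * (3 * (K : ℝ) ^ (-c)) ≤ (k : ℝ) ^ (-(2 * (c / 3)))
  m54 : (k : ℝ) ^ (0.54 : ℝ) ≤ s / 20

theorem nm (C L k0 : ℕ) {c δ D : ℝ} (hc : 0 < c) (hc1 : c ≤ 1 / 1000) (hδ : 0 < δ) (hD : 1 ≤ D)
    (b C1 m : ℕ) (hb : b = 3 * L + 12) (hC1 : C1 = 20000 * b) (hm : (b + 1 : ℝ) ≤ δ * m) :
    ∃ K0 : ℕ, ∀ K k s : ℕ, K0 ≤ K → k = K + C → s = ss k → Nm C L b C1 m k0 c δ D K k s := by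
  have hall := (eventually_ge_atTop (max (max C k0) (16 * (245 + (L + 1)) * 5 ^ (3 * L + 10)))).and
    ((ev_pow (show (0:ℝ) < 0.0001 by norm_num) 164).and
    ((ev_pow (show (0:ℝ) < 0.0075 by norm_num) 2).and
    ((ev_exp (show (0:ℝ) < 0.02 by norm_num) (show (0:ℝ) < 1 / 4 by norm_num) b).and
    ((ev_exp (show (0:ℝ) < 0.01 by norm_num) (show (0:ℝ) < 1 by norm_num) b).and
    ((ev_pow (show (0:ℝ) < 1 by norm_num) (D ^ m)).and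
    ((ev_pow (show (0:ℝ) < 0.00003 by norm_num) 2563).and
    ((ev_pow (show (0:ℝ) < 0.51 by norm_num) C).and
    ((ev_pow (show (0:ℝ) < 0.01 by norm_num) 2).and
    ((ev_pow (show (0:ℝ) < 0.0875 by norm_num) 4).and
    ((ev_pow (show (0:ℝ) < 0.0885 by norm_num) 4).and
    ((ev_pow (show 0 < c / 2 by positivity) 3).and
    ((ev_pow (show 0 < c / 3 by positivity) (2 * (1 + 300 * C))).and
    ((ev_pow (show (0:ℝ) < 0.4575 by norm_num) 40).and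
    (ev_pow (show (0:ℝ) < 0.9975 by norm_num) 20))))))))))))))
  obtain ⟨K0, hK0⟩ := eventually_atTop.1 hall
  refine ⟨max K0 1, fun K k s hK hk hs => ?_⟩
  obtain ⟨a0, a1, a2, a3, a4, a5, a6, a7, a8, a9, a10, a11, a12, a13, a14⟩ :=
    hK0 K ((le_max_left _ _).trans hK)
  have hK1 : 1 ≤ K := (le_max_right _ _).trans hK
  have hKr : (1 : ℝ) ≤ K := by exact_mod_cast hK1
  have hKp : (0 : ℝ) < K := by linarith
  have hkK : K ≤ k := by omega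
  have hCK : C ≤ K := (le_max_left _ _).trans ((le_max_left _ _).trans a0)
  have hk0K : k0 ≤ K := (le_max_right _ _).trans ((le_max_left _ _).trans a0)
  have hk2 : k ≤ 2 * K := by omega
  have hkKr : (K : ℝ) ≤ k := by exact_mod_cast hkK
  have hk2r : (k : ℝ) ≤ 2 * K := by exact_mod_cast hk2
  have hkp : (0 : ℝ) < k := by linarith
  have hk1 : (1 : ℝ) ≤ k := by linarith
  -- size of `s`
  have e975 : (1 - 1 / 10000 : ℝ) = 0.9999 := by norm_num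
  have hslo' : (k : ℝ) ^ (0.9999 : ℝ) ≤ s := by
    rw [hs, ss, e975]
    exact Nat.le_ceil _
  have hslo : (K : ℝ) ^ (0.9975 : ℝ) ≤ s :=
    ((Real.rpow_le_rpow_of_exponent_le hKr (by norm_num)).trans
      (Real.rpow_le_rpow hKp.le hkKr (by norm_num))).trans hslo'
  have h2pow : ∀ a : ℝ, 0 ≤ a → a ≤ 1 → (k : ℝ) ^ a ≤ 2 * (K : ℝ) ^ a := by
    intro a ha0 ha1
    calc (k : ℝ) ^ a ≤ (2 * K : ℝ) ^ a := Real.rpow_le_rpow hkp.le hk2r ha0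
      _ = (2 : ℝ) ^ a * (K : ℝ) ^ a := Real.mul_rpow (by norm_num) hKp.le
      _ ≤ 2 * (K : ℝ) ^ a := by
          have : (2 : ℝ) ^ a ≤ 2 ^ (1 : ℝ) := Real.rpow_le_rpow_of_exponent_le (by norm_num) ha1
          rw [Real.rpow_one] at this
          exact mul_le_mul_of_nonneg_right this (Real.rpow_nonneg hKp.le _)
  have hshi' : (s : ℝ) ≤ 4 * (K : ℝ) ^ (0.9999 : ℝ) := by
    have h1 : (s : ℝ) ≤ (k : ℝ) ^ (0.9999 : ℝ) + 1 := by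
      rw [hs, ss, e975]
      exact (Nat.ceil_lt_add_one (by positivity)).le
    have h2 := h2pow 0.9999 (by norm_num) (by norm_num)
    have h3 : (1 : ℝ) ≤ (K : ℝ) ^ (0.9999 : ℝ) := Real.one_le_rpow hKr (by norm_num)
    linarith
  have hpK : ∀ a : ℝ, 0 < (K : ℝ) ^ a := fun a => Real.rpow_pos_of_pos hKp a
  have hmulK : ∀ a a' : ℝ, (K : ℝ) ^ a * (K : ℝ) ^ a' = (K : ℝ) ^ (a + a') := fun a a' =>
    (Real.rpow_add hKp a a').symm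
  have hs41 : 41 * s ≤ K := by
    have h1 : (41 : ℝ) * s ≤ K := by
      calc (41 : ℝ) * s ≤ 164 * (K : ℝ) ^ (0.9999 : ℝ) := by linarith
        _ ≤ (K : ℝ) ^ (0.0001 : ℝ) * (K : ℝ) ^ (0.9999 : ℝ) := by gcongr
        _ = K := by rw [hmulK]; norm_num
    exact_mod_cast h1
  have hs20 : 20 ≤ s := by
    have h1 : (20 : ℝ) ≤ s := a14.trans hslo
    exact_mod_cast h1
  have hshi : s ≤ k := by omega
  have hsr : (0 : ℝ) < s := lt_of_lt_of_le (hpK _) hslo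
  have hkslo : (k : ℝ) ^ (0.99 : ℝ) ≤ s :=
    (Real.rpow_le_rpow_of_exponent_le hk1 (by norm_num)).trans hslo'
  have ee : ∀ x : ℝ, 2 * Real.exp (-(1 * (K : ℝ) ^ (0.01 : ℝ))) ≤ 1 / (K : ℝ) ^ b →
      (K : ℝ) ^ (0.01 : ℝ) ≤ x → Real.exp (-x) ≤ 1 / (K : ℝ) ^ b := by
    intro x h1 h2
    have h3 : Real.exp (-x) ≤ Real.exp (-(1 * (K : ℝ) ^ (0.01 : ℝ))) :=
      Real.exp_le_exp.2 (by linarith)
    have h4 := Real.exp_pos (-(1 * (K : ℝ) ^ (0.01 : ℝ)))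
    linarith
  refine ⟨hK1, hkK, hk2, hk0K.trans hkK, hs41, hkslo, hshi, hs20, ?_, ?_, ?_, ?_, ?_, ?_, ?_, ?_,
    ?_, ?_, ?_, ?_, ?_, ?_, ?_⟩
  · -- ecnt
    refine le_trans ?_ a3
    have h1 : 1 / 4 * (K : ℝ) ^ (0.02 : ℝ) ≤ ((K : ℝ) ^ (0.51 : ℝ)) ^ 2 / (2 * k) := by
      rw [le_div_iff₀ (by positivity)]
      have h2 : ((K : ℝ) ^ (0.51 : ℝ)) ^ 2 = (K : ℝ) ^ (0.02 : ℝ) * K := by
        rw [← Real.rpow_natCast, ← Real.rpow_mul hKp.le]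
        conv_rhs => rw [← Real.rpow_one (K : ℝ), Real.rpow_one, ← Real.rpow_one (K : ℝ)]
        rw [Real.rpow_one]
        nth_rewrite 3 [← Real.rpow_one (K : ℝ)]
        rw [hmulK]
        norm_num
      rw [h2]
      have := hpK 0.02
      nlinarith
    have h2 : Real.exp (-(((K : ℝ) ^ (0.51 : ℝ)) ^ 2 / (2 * k))) ≤
        Real.exp (-(1 / 4 * (K : ℝ) ^ (0.02 : ℝ))) := Real.exp_le_exp.2 (by linarith)
    linarith
  · -- efr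
    exact ee _ a4 (Real.rpow_le_rpow hKp.le hkKr (by norm_num))
  · -- esp
    refine ee _ a4 ?_
    calc (K : ℝ) ^ (0.01 : ℝ) ≤ (K : ℝ) ^ ((0.9975 : ℝ) + -c) :=
          Real.rpow_le_rpow_of_exponent_le hKr (by linarith)
      _ = (K : ℝ) ^ (0.9975 : ℝ) * (K : ℝ) ^ (-c) := (hmulK _ _).symm
      _ ≤ _ := mul_le_mul_of_nonneg_right hslo (hpK _).le
  · -- epth
    rw [Real.rpow_one] at a5
    rw [div_pow, div_le_div_iff₀ (pow_pos (hpK _) _) (by positivity), one_mul]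
    calc D ^ m * (K : ℝ) ^ b ≤ K * (K : ℝ) ^ b := mul_le_mul_of_nonneg_right a5 (by positivity)
      _ = (K : ℝ) ^ ((b + 1 : ℕ) : ℝ) := by rw [Real.rpow_natCast]; ring
      _ ≤ (K : ℝ) ^ (δ * m) := Real.rpow_le_rpow_of_exponent_le hKr (by push_cast; exact hm)
      _ = ((K : ℝ) ^ δ) ^ m := by rw [Real.rpow_mul hKp.le, Real.rpow_natCast]
  · -- eedg
    have h1 : (K : ℝ) ^ (1 / 50000 : ℝ) * (40 * s / K) ≤ (K : ℝ) ^ (-(1 / 20000) : ℝ) := by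
      rw [mul_div_assoc', div_le_iff₀ hKp]
      calc (K : ℝ) ^ (1 / 50000 : ℝ) * (40 * s) ≤
            (K : ℝ) ^ (1 / 50000 : ℝ) * (160 * (K : ℝ) ^ (0.9999 : ℝ)) :=
            mul_le_mul_of_nonneg_left (by linarith) (hpK _).le
        _ ≤ (K : ℝ) ^ (1 / 50000 : ℝ) * ((K : ℝ) ^ (0.00003 : ℝ) * (K : ℝ) ^ (0.9999 : ℝ)) := by
            have : (160 : ℝ) ≤ (K : ℝ) ^ (0.00003 : ℝ) := by linarith
            gcongr
        _ = (K : ℝ) ^ (-(1 / 20000) : ℝ) * (K : ℝ) ^ (1 : ℝ) := by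
            rw [hmulK, hmulK, hmulK]; norm_num
        _ = _ := by rw [Real.rpow_one]
    calc ((K : ℝ) ^ (1 / 50000 : ℝ) * (40 * s / K)) ^ (C1 + 1) ≤
          ((K : ℝ) ^ (-(1 / 20000) : ℝ)) ^ (C1 + 1) :=
          pow_le_pow_left₀ (by positivity) h1 _
      _ = (K : ℝ) ^ (-(1 / 20000) * ((C1 + 1 : ℕ) : ℝ) : ℝ) := by
          rw [Real.rpow_mul hKp.le, Real.rpow_natCast]
      _ ≤ (K : ℝ) ^ (-(b : ℝ)) := by
          apply Real.rpow_le_rpow_of_exponent_le hKr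
          rw [hC1]
          push_cast
          linarith
      _ = _ := by rw [Real.rpow_neg hKp.le, Real.rpow_natCast, one_div]
  · -- esq
    exact ee _ a4 (Real.rpow_le_rpow_of_exponent_le hKr (by norm_num))
  · -- nb
    have h1 : (2 * k) * (K : ℝ) ^ (1 / 50000 : ℝ) * (40 * s / K) ≤
        640 * (K : ℝ) ^ (1 - 4 / 50000 : ℝ) := by
      have h2 : 40 * (s : ℝ) / K ≤ 160 * (K : ℝ) ^ (-(1 / 10000) : ℝ) := by
        rw [div_le_iff₀ hKp]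
        calc 40 * (s : ℝ) ≤ 160 * (K : ℝ) ^ (0.9999 : ℝ) := by linarith
          _ = 160 * ((K : ℝ) ^ (-(1 / 10000) : ℝ) * (K : ℝ) ^ (1 : ℝ)) := by
              rw [hmulK]; norm_num
          _ = _ := by rw [Real.rpow_one]; ring
      calc (2 * k) * (K : ℝ) ^ (1 / 50000 : ℝ) * (40 * s / K) ≤
            (4 * K) * (K : ℝ) ^ (1 / 50000 : ℝ) * (160 * (K : ℝ) ^ (-(1 / 10000) : ℝ)) :=
            mul_le_mul (mul_le_mul_of_nonneg_right (by linarith) (hpK _).le) h2 (by positivity)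
              (by positivity)
        _ = 640 * ((K : ℝ) ^ (1 : ℝ) * (K : ℝ) ^ (1 / 50000 : ℝ) *
            (K : ℝ) ^ (-(1 / 10000) : ℝ)) := by rw [Real.rpow_one]; ring
        _ = _ := by rw [hmulK, hmulK]; norm_num
    have h3 : (K : ℝ) ^ (1 / 2 : ℝ) ≤ (K : ℝ) ^ (1 - 4 / 50000 : ℝ) :=
      Real.rpow_le_rpow_of_exponent_le hKr (by norm_num)
    have h4 : 2563 * (K : ℝ) ^ (1 - 4 / 50000 : ℝ) ≤ (K : ℝ) ^ (1 - 1 / 50000 : ℝ) := by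
      calc 2563 * (K : ℝ) ^ (1 - 4 / 50000 : ℝ) ≤
            (K : ℝ) ^ (0.00003 : ℝ) * (K : ℝ) ^ (1 - 4 / 50000 : ℝ) := by gcongr
        _ ≤ _ := by
            rw [hmulK]
            exact Real.rpow_le_rpow_of_exponent_le hKr (by norm_num)
    have h5 := hpK (1 - 4 / 50000)
    linarith
  · -- tot
    have h5 : 2 * (k : ℝ) + 1 ≤ 5 * K := by linarith
    have h0 : (0 : ℝ) ≤ 2 * (k : ℝ) + 1 := by positivity
    have h51 : (1 : ℝ) ≤ 5 * K := by linarith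
    have h6 : (16 * (245 + (L + 1)) * 5 ^ (3 * L + 10) : ℝ) ≤ K := by
      have := (le_max_right _ _).trans a0
      exact_mod_cast this
    have h7 : (244 + (L + 1) * (2 * (k : ℝ) + 1) ^ L) ≤ (245 + (L + 1)) * (5 * (K : ℝ)) ^ L := by
      have h8 : (2 * (k : ℝ) + 1) ^ L ≤ (5 * (K : ℝ)) ^ L := pow_le_pow_left₀ h0 h5 _
      have h9 : (1 : ℝ) ≤ (5 * (K : ℝ)) ^ L := one_le_pow₀ h51
      have h10 : (0 : ℝ) ≤ (L : ℝ) + 1 := by positivity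
      nlinarith
    have h8 : ((2 * (k : ℝ) + 1) ^ (L + 5)) ^ 2 ≤ ((5 * (K : ℝ)) ^ (L + 5)) ^ 2 :=
      pow_le_pow_left₀ (by positivity) (pow_le_pow_left₀ h0 h5 _) 2
    calc _ ≤ ((245 + (L + 1)) * (5 * (K : ℝ)) ^ L) * (16 * ((5 * (K : ℝ)) ^ (L + 5)) ^ 2) := by
          gcongr
      _ = (16 * (245 + (L + 1)) * 5 ^ (3 * L + 10)) * (K : ℝ) ^ (3 * L + 10) := by
          rw [← pow_mul]
          have e1 : (5 * (K : ℝ)) ^ L * (5 * (K : ℝ)) ^ ((L + 5) * 2) =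
              5 ^ (3 * L + 10) * (K : ℝ) ^ (3 * L + 10) := by
            rw [← pow_add, mul_pow]
            congr 2 <;> ring
          calc ((245 + (L + 1)) * (5 * (K : ℝ)) ^ L) * (16 * (5 * (K : ℝ)) ^ ((L + 5) * 2)) =
                (16 * (245 + (L + 1))) * ((5 * (K : ℝ)) ^ L * (5 * (K : ℝ)) ^ ((L + 5) * 2)) := by
                ring
            _ = _ := by rw [e1]; ring
      _ ≤ K * (K : ℝ) ^ (3 * L + 10) := by gcongr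
      _ = (K : ℝ) ^ (3 * L + 11) := by ring
      _ ≤ (K : ℝ) ^ b := pow_le_pow_right₀ hKr (by omega)
  · -- t52
    calc (K : ℝ) ^ (0.51 : ℝ) + C ≤ 2 * (K : ℝ) ^ (0.51 : ℝ) := by linarith
      _ ≤ (K : ℝ) ^ (0.01 : ℝ) * (K : ℝ) ^ (0.51 : ℝ) := by gcongr
      _ = (K : ℝ) ^ (0.52 : ℝ) := by rw [hmulK]; norm_num
      _ ≤ _ := Real.rpow_le_rpow hKp.le hkKr (by norm_num)
  · -- t4
    have h1 : (K : ℝ) ^ (-0.4 : ℝ) / 2 ≤ (k : ℝ) ^ (-0.4 : ℝ) := by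
      have h2 := h2pow 0.4 (by norm_num) (by norm_num)
      rw [Real.rpow_neg hKp.le, Real.rpow_neg hkp.le, div_eq_mul_inv, ← mul_inv]
      apply inv_anti₀ (by positivity)
      linarith
    calc (K : ℝ) ^ (0.51 : ℝ) + C ≤ 2 * (K : ℝ) ^ (0.51 : ℝ) := by linarith
      _ ≤ ((K : ℝ) ^ (0.0875 : ℝ) / 2) * (K : ℝ) ^ (0.51 : ℝ) := by
          gcongr
          linarith
      _ = (K : ℝ) ^ (0.9975 : ℝ) * ((K : ℝ) ^ (-0.4 : ℝ) / 2) := by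
          rw [div_mul_eq_mul_div, mul_div_assoc', hmulK, hmulK]; norm_num
      _ ≤ _ := by gcongr
  · -- t6
    calc 2 * ((K : ℝ) ^ (0.51 : ℝ) + C) ≤ 4 * (K : ℝ) ^ (0.51 : ℝ) := by linarith
      _ ≤ (K : ℝ) ^ (0.0885 : ℝ) * (K : ℝ) ^ (0.51 : ℝ) := by gcongr
      _ = ((K : ℝ) ^ (0.9975 : ℝ)) ^ (0.6 : ℝ) := by
          rw [hmulK, ← Real.rpow_mul hKp.le]; norm_num
      _ ≤ _ := Real.rpow_le_rpow (hpK _).le hslo (by norm_num)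
  · -- c1
    have h1 : (K : ℝ) ^ (-c) * (K : ℝ) ^ c = 1 := by rw [hmulK]; simp
    have h2 : (K : ℝ) ^ (c / 2) ≤ (K : ℝ) ^ c := Real.rpow_le_rpow_of_exponent_le hKr (by linarith)
    have := hpK (-c)
    nlinarith
  · -- c2
    have h1 : (K : ℝ) ^ (-(c / 2)) = (K : ℝ) ^ (c / 2) * (K : ℝ) ^ (-c) := by
      rw [hmulK]; congr 1; ring
    rw [h1]
    have := hpK (-c)
    nlinarith
  · -- err
    have h1 : (K : ℝ) ^ (-(2 * (c / 3))) / 2 ≤ (k : ℝ) ^ (-(2 * (c / 3))) := by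
      have h2 := h2pow (2 * (c / 3)) (by positivity) (by linarith)
      rw [Real.rpow_neg hKp.le, Real.rpow_neg hkp.le, div_eq_mul_inv, ← mul_inv]
      apply inv_anti₀ (by positivity)
      linarith
    have h2 : (k : ℝ) ^ (-0.3 : ℝ) ≤ (K : ℝ) ^ (-c) := by
      calc (k : ℝ) ^ (-0.3 : ℝ) ≤ (K : ℝ) ^ (-0.3 : ℝ) :=
            Real.rpow_le_rpow_of_nonpos hKp hkKr (by norm_num)
        _ ≤ (K : ℝ) ^ (-c) := Real.rpow_le_rpow_of_exponent_le hKr (by linarith)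
    have h3 : (K : ℝ) ^ (-(2 * (c / 3))) = (K : ℝ) ^ (c / 3) * (K : ℝ) ^ (-c) := by
      rw [hmulK]; congr 1; ring
    have h4 := hpK (-c)
    have h5 : 2 * (1 + 300 * (C : ℝ)) * (K : ℝ) ^ (-c) ≤ (K : ℝ) ^ (-(2 * (c / 3))) := by
      rw [h3]
      exact mul_le_mul_of_nonneg_right a12 h4.le
    nlinarith
  · -- m54
    have h1 := h2pow 0.54 (by norm_num) (by norm_num)
    have h2 : 40 * (K : ℝ) ^ (0.54 : ℝ) ≤ (K : ℝ) ^ (0.9975 : ℝ) := by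
      calc 40 * (K : ℝ) ^ (0.54 : ℝ) ≤ (K : ℝ) ^ (0.4575 : ℝ) * (K : ℝ) ^ (0.54 : ℝ) := by gcongr
        _ = _ := by rw [hmulK]; norm_num
    linarith

end Pool.Agent.C4N.H46
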